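import Mathlib

/-!
# Abelian subgroups of bounded index and rank at most `p - 2` of `p`-groups: their powers are central
-/

set_option autoImplicit false

namespace Pool.Agent.ABS

open Finset

/-- `(1 + N) ^ p = 1` implies `N ^ p = - p (N + N ^ 2 V)`. -/
theorem pow_p {R : Type} [Ring R] {p : ℕ} (hp : p.Prime) (N : R) (h : (N + 1) ^ p = 1) :
    ∃ V : R, Commute N V ∧ N ^ p = - ((p : R) * (N + N ^ 2 * V)) := by
  have h1 := (Commute.one_right N).add_pow_prime_eq' hp
  rw [h] at h1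
  refine ⟨∑ k ∈ Finset.Ioo 1 p, N ^ (k - 2) * ((p.choose k / p : ℕ) : R), ?_, ?_⟩
  · refine Commute.sum_right _ _ _ fun k _ => ?_
    exact ((Commute.refl N).pow_right _).mul_right (Nat.cast_commute _ _).symm
  · have h2 : ∑ k ∈ Finset.Ioo 0 p, N ^ k * (1 : R) ^ (p - k) * ((p.choose k / p : ℕ) : R) =
        N + N ^ 2 * ∑ k ∈ Finset.Ioo 1 p, N ^ (k - 2) * ((p.choose k / p : ℕ) : R) := by
      have h3 : Finset.Ioo 0 p = insert 1 (Finset.Ioo 1 p) := by
        ext k
        simp only [Finset.mem_Ioo, Finset.mem_insert]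
        have := hp.two_le
        omega
      rw [h3, Finset.sum_insert (by simp), Finset.mul_sum]
      congr 1
      · rw [one_pow, mul_one, pow_one, Nat.choose_one_right, Nat.div_self hp.pos, Nat.cast_one, mul_one]
      · refine Finset.sum_congr rfl fun k hk => ?_
        rw [Finset.mem_Ioo] at hk
        rw [one_pow, mul_one, ← mul_assoc, ← pow_add]
        congr 2
        omega
    rw [h2, one_pow] at h1
    have h4 : N ^ p = (N ^ p + 1 + (p : R) * (N + N ^ 2 * ∑ k ∈ Finset.Ioo 1 p, N ^ (k - 2) * ((p.choose k / p : ℕ) : R))) - 1 -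
      (p : R) * (N + N ^ 2 * ∑ k ∈ Finset.Ioo 1 p, N ^ (k - 2) * ((p.choose k / p : ℕ) : R)) := by abel
    rw [h4, ← h1]
    abel

/-- The elements `y` with `p y = 0` and `N ^ i y = 0`. -/
def Lad {M : Type} [AddCommGroup M] (p : ℕ) (N : Module.End ℤ M) (i : ℕ) : AddSubgroup M where
  carrier := {y | p • y = 0 ∧ (N ^ i) y = 0}
  zero_mem' := ⟨smul_zero _, map_zero _⟩
  add_mem' := by
    rintro a b ⟨h1, h2⟩ ⟨h3, h4⟩
    exact ⟨by rw [smul_add, h1, h3, add_zero], by rw [map_add, h2, h4, add_zero]⟩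
  neg_mem' := by
    rintro a ⟨h1, h2⟩
    exact ⟨by rw [smul_neg, h1, neg_zero], by rw [map_neg, h2, neg_zero]⟩

/-- A Jordan chain of length `p - 1`. -/
theorem chain {M : Type} [AddCommGroup M] [Finite M] {p : ℕ} (hp : p.Prime) (hM : ∃ n : ℕ, Nat.card M = p ^ n)
    (N : Module.End ℤ M) (h : (N + 1) ^ p = 1) (hN : ∃ x : M, p • N x ≠ 0) :
    p ^ (p - 1) ≤ Nat.card {x : M // p • x = 0} := by
  classical
  obtain ⟨V, hV, hNp⟩ := pow_p hp N h
  obtain ⟨n, hn⟩ := hM
  have hkill : ∀ x : M, p ^ n • x = 0 := by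
    intro x
    rw [← hn]
    exact card_nsmul_eq_zero'
  -- action of `p * W`
  have hpW : ∀ (W : Module.End ℤ M) (x : M), ((p : Module.End ℤ M) * W) x = p • W x := by
    intro W x
    rw [Module.End.mul_apply, Module.End.natCast_apply]
  have hnil : ∃ j : ℕ, ∀ x : M, p • (N ^ j) x = 0 := by
    refine ⟨p * n, fun x => ?_⟩
    have h1 : N ^ (p * n) = (p : Module.End ℤ M) ^ n * (-(N + N ^ 2 * V)) ^ n := by
      rw [pow_mul, hNp, ← mul_neg, (Nat.cast_commute p _).mul_pow]
    have h2 : (N ^ (p * n)) x = 0 := by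
      rw [h1, ← Nat.cast_pow, Module.End.mul_apply, Module.End.natCast_apply]
      exact hkill _
    rw [h2, smul_zero]
  obtain ⟨x₁, hx₁⟩ := hN
  have hJ := Nat.find_spec hnil
  have hJ2 : 2 ≤ Nat.find hnil := by
    by_contra h1
    have h2 : Nat.find hnil = 0 ∨ Nat.find hnil = 1 := by omega
    rcases h2 with h2 | h2
    · rw [h2] at hJ
      exact hx₁ (hJ (N x₁))
    · rw [h2, pow_one] at hJ
      exact hx₁ (hJ x₁)
  obtain ⟨j, hj⟩ : ∃ j, Nat.find hnil = j + 2 := ⟨Nat.find hnil - 2, by omega⟩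
  have hmin : ∃ x₀ : M, p • (N ^ (j + 1)) x₀ ≠ 0 := by
    by_contra h1
    push Not at h1
    have := Nat.find_min' hnil h1
    omega
  obtain ⟨x₀, hx₀⟩ := hmin
  rw [hj] at hJ
  have hJ' : ∀ i, j + 2 ≤ i → ∀ x : M, p • (N ^ i) x = 0 := by
    intro i hi x
    obtain ⟨c, rfl⟩ := Nat.exists_eq_add_of_le hi
    rw [pow_add, Module.End.mul_apply]
    exact hJ _
  -- `N ^ (j + p) x₀ = - p N ^ (j + 1) x₀`
  have hk1 : (N ^ (j + p)) x₀ = - (p • (N ^ (j + 1)) x₀) := by
    have h1 : N ^ (j + p) = - ((p : Module.End ℤ M) * (N ^ (j + 1) + N ^ (j + 2) * V)) := by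
      rw [pow_add, hNp, mul_neg, ← mul_assoc, ← (Nat.cast_commute p (N ^ j)).eq, mul_assoc, mul_add, ← mul_assoc (N ^ j) (N ^ 2) V,
        ← pow_add, ← pow_succ]
    rw [h1, LinearMap.neg_apply, hpW, LinearMap.add_apply, smul_add, Module.End.mul_apply, hJ (V x₀), add_zero]
  have hk2 : (N ^ (j + p + 1)) x₀ = 0 := by
    rw [show j + p + 1 = 1 + (j + p) by omega, pow_add, Module.End.mul_apply, hk1, pow_one, map_neg, map_nsmul]
    have h1 : N ((N ^ (j + 1)) x₀) = (N ^ (j + 2)) x₀ := by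
      rw [show j + 2 = 1 + (j + 1) by omega, pow_add N 1, Module.End.mul_apply, pow_one]
    rw [h1, hJ x₀, neg_zero]
  have hle : ∀ i, Lad p N i ≤ Lad p N (i + 1) := by
    rintro i y ⟨h1, h2⟩
    refine ⟨h1, ?_⟩
    rw [show i + 1 = 1 + i by omega, pow_add, Module.End.mul_apply, h2, map_zero]
  have hcard : ∀ i, ∃ s : ℕ, Nat.card (Lad p N i) = p ^ s := by
    intro i
    have h1 : Nat.card (Lad p N i) ∣ p ^ n := by
      rw [← hn]
      exact AddSubgroup.card_addSubgroup_dvd_card _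
    obtain ⟨s, -, hs⟩ := (Nat.dvd_prime_pow hp).1 h1
    exact ⟨s, hs⟩
  have hstep : ∀ i, i + 2 ≤ p → Nat.card (Lad p N i) < Nat.card (Lad p N (i + 1)) := by
    intro i hi
    refine lt_of_le_of_ne (Nat.card_mono (Set.toFinite _) (hle i)) fun h1 => ?_
    have h2 : Lad p N i = Lad p N (i + 1) := AddSubgroup.eq_of_le_of_card_ge (hle i) h1.ge
    have h3 : (N ^ (j + p - i)) x₀ ∈ Lad p N (i + 1) := by
      refine ⟨hJ' _ (by omega) _, ?_⟩
      rw [← Module.End.mul_apply, ← pow_add, show i + 1 + (j + p - i) = j + p + 1 by omega]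
      exact hk2
    rw [← h2] at h3
    have h4 := h3.2
    rw [← Module.End.mul_apply, ← pow_add, show i + (j + p - i) = j + p by omega, hk1, neg_eq_zero] at h4
    exact hx₀ h4
  have hmain : ∀ i, i + 1 ≤ p → p ^ i ≤ Nat.card (Lad p N i) := by
    intro i
    induction i with
    | zero =>
      intro _
      rw [pow_zero]
      exact Nat.card_pos
    | succ i ih =>
      intro hi
      have h1 := ih (by omega)
      have h2 := hstep i (by omega)
      obtain ⟨s, hs⟩ := hcard i
      obtain ⟨t, ht⟩ := hcard (i + 1)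
      rw [hs] at h1 h2
      rw [ht] at h2 ⊢
      have h3 : i ≤ s := (Nat.pow_le_pow_iff_right hp.one_lt).1 h1
      have h4 : s < t := (Nat.pow_lt_pow_iff_right hp.one_lt).1 h2
      exact Nat.pow_le_pow_right hp.pos (by omega)
  refine (hmain (p - 1) (by have := hp.pos; omega)).trans ?_
  refine Nat.card_le_card_of_injective (fun y : Lad p N (p - 1) => (⟨y.1, y.2.1⟩ : {x : M // p • x = 0})) ?_
  intro a b hab
  exact Subtype.ext (congrArg (fun z : {x : M // p • x = 0} => z.1) hab)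

/-- An automorphism of order dividing `p` of an abelian `p`-group `C` of rank at most `p - 2` is trivial on the `p`-th powers. -/
theorem conj {G : Type} [Group G] [Finite G] {p : ℕ} (hp : p.Prime) (C : Subgroup G) (hC : IsPGroup p C)
    (hc : ∀ x ∈ C, ∀ y ∈ C, x * y = y * x) (hr : {x : G | x ∈ C ∧ x ^ p = 1}.ncard < p ^ (p - 1)) (g : G)
    (hg : ∀ x ∈ C, g * x * g⁻¹ ∈ C) (hgp : ∀ x ∈ C, g ^ p * x = x * g ^ p) : ∀ x ∈ C, g * x ^ p = x ^ p * g := by
  have : Fact p.Prime := ⟨hp⟩
  letI : CommGroup C := { (inferInstance : Group C) with mul_comm := fun a b => Subtype.ext (hc a a.2 b b.2) }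
  let f : C →* C :=
    { toFun := fun x => ⟨g * x * g⁻¹, hg x x.2⟩
      map_one' := Subtype.ext (by simp)
      map_mul' := fun a b => Subtype.ext (by simp [mul_assoc]) }
  let β : Module.End ℤ (Additive C) := (MonoidHom.toAdditive f).toIntLinearMap
  have hβ : ∀ (n : ℕ) (x : C), ((β ^ n) (Additive.ofMul x)) =
      Additive.ofMul (⟨g ^ n * x * (g ^ n)⁻¹, by
        induction n with
        | zero => simp
        | succ n ih =>
          have h1 := hg _ ih
          have h2 : g ^ (n + 1) * (x : G) * (g ^ (n + 1))⁻¹ = g * (g ^ n * x * (g ^ n)⁻¹) * g⁻¹ := by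
            rw [pow_succ']
            group
          rw [h2]
          exact h1⟩ : C) := by
    intro n x
    induction n with
    | zero =>
      rw [pow_zero, Module.End.one_apply]
      refine congrArg Additive.ofMul (Subtype.ext ?_)
      simp
    | succ n ih =>
      rw [pow_succ', Module.End.mul_apply, ih]
      refine congrArg Additive.ofMul (Subtype.ext ?_)
      change g * (g ^ n * (x : G) * (g ^ n)⁻¹) * g⁻¹ = g ^ (n + 1) * (x : G) * (g ^ (n + 1))⁻¹
      rw [pow_succ' g n]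
      group
  have hβp : β ^ p = 1 := by
    refine LinearMap.ext fun x => ?_
    obtain ⟨y, rfl⟩ := Additive.ofMul.surjective x
    rw [hβ, Module.End.one_apply]
    refine congrArg Additive.ofMul (Subtype.ext ?_)
    change g ^ p * (y : G) * (g ^ p)⁻¹ = y
    rw [hgp y y.2, mul_assoc, mul_inv_cancel, mul_one]
  by_contra h0
  push Not at h0
  obtain ⟨x, hx, hx1⟩ := h0
  have hcd : ∃ n : ℕ, Nat.card C = p ^ n := IsPGroup.iff_card.1 hC
  have h1 := chain hp (M := Additive C) hcd (β - 1) (by rw [sub_add_cancel]; exact hβp) ⟨Additive.ofMul ⟨x, hx⟩, ?_⟩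
  · refine absurd (h1.trans ?_) (not_le.2 hr)
    have hf : ({x : G | x ∈ C ∧ x ^ p = 1}).Finite := Set.toFinite _
    rw [← Nat.card_coe_set_eq]
    refine Nat.card_le_card_of_injective (fun y : {y : Additive C // p • y = 0} =>
      (⟨((Additive.toMul y.1 : C) : G), (Additive.toMul y.1 : C).2, ?_⟩ : {x : G | x ∈ C ∧ x ^ p = 1})) ?_
    · have h2 : (Additive.toMul y.1 : C) ^ p = 1 := y.2
      exact congrArg (fun z : C => (z : G)) h2
    · intro a b hab
      have h2 : ((Additive.toMul a.1 : C) : G) = ((Additive.toMul b.1 : C) : G) := congrArg (fun z : {x : G | x ∈ C ∧ x ^ p = 1} => (z : G)) hab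
      exact Subtype.ext (Additive.toMul.injective (Subtype.ext h2))
  · intro h2
    apply hx1
    have h3 : ((f ⟨x, hx⟩ : C) / ⟨x, hx⟩) ^ p = 1 := h2
    rw [div_pow, div_eq_one, ← map_pow] at h3
    have h4 : g * x ^ p * g⁻¹ = x ^ p := congrArg (fun z : C => (z : G)) h3
    calc g * x ^ p = (g * x ^ p * g⁻¹) * g := by group
      _ = x ^ p * g := by rw [h4]

/-- `A` an abelian subgroup of index `p ^ f` and rank at most `p - 2` of the finite `p`-group `P`. -/
theorem central {p r : ℕ} (hp : p.Prime) (hr : r + 2 ≤ p) (f : ℕ) : ∀ (P : Type) [Group P] [Finite P], IsPGroup p P →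
    ∀ A : Subgroup P, (∀ x ∈ A, ∀ y ∈ A, x * y = y * x) → Nat.card P = p ^ f * Nat.card A →
    {x : P | x ∈ A ∧ x ^ p = 1}.ncard ≤ p ^ r → ∀ x ∈ A, ∀ g : P, g * x ^ p ^ (f * (f + 1) / 2) = x ^ p ^ (f * (f + 1) / 2) * g := by
  have : Fact p.Prime := ⟨hp⟩
  induction f with
  | zero =>
    intro P _ _ hP A hc hA _ x hx g
    have h1 : A = ⊤ := Subgroup.eq_top_of_card_eq A (by rw [hA, pow_zero, one_mul])
    have hg : g ∈ A := h1 ▸ Subgroup.mem_top g
    exact hc g hg _ (A.pow_mem hx _)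
  | succ f ih =>
    intro P _ _ hP A hc hA hrk x hx g
    obtain ⟨n, hn⟩ := IsPGroup.iff_card.1 hP
    obtain ⟨s, hs⟩ := IsPGroup.iff_card.1 (hP.to_subgroup A)
    have hns : n = f + 1 + s := by
      rw [hn, hs, ← pow_add] at hA
      exact Nat.pow_right_injective hp.two_le hA
    obtain ⟨K, hK, hAK⟩ := Sylow.exists_subgroup_card_pow_prime_le p (n := s) (m := f + s)
      (by rw [hn, hns]; exact pow_dvd_pow p (by omega)) A hs (by omega)
    have hKi : K.index = p := by
      have h1 := K.card_mul_index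
      rw [hK, hn, hns, show f + 1 + s = (f + s) + 1 by omega, pow_succ] at h1
      exact Nat.eq_of_mul_eq_mul_left (pow_pos hp.pos _) h1
    have hKn : K.Normal := by
      refine Subgroup.normal_of_index_eq_minFac_card ?_
      rw [hKi, hn, hns, hp.pow_minFac (by omega)]
    -- the induction hypothesis for `K`
    have hIH : ∀ x ∈ A, ∀ g ∈ K, g * x ^ p ^ (f * (f + 1) / 2) = x ^ p ^ (f * (f + 1) / 2) * g := by
      intro x hx g hg
      have h1 := ih K (hP.to_subgroup K) (A.subgroupOf K) (fun a ha b hb => Subtype.ext (hc a ha b hb)) ?_ ?_ ⟨x, hAK hx⟩ hx ⟨g, hg⟩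
      · exact congrArg (fun z : K => (z : P)) h1
      · rw [hK, Nat.card_congr (Subgroup.subgroupOfEquivOfLe hAK).toEquiv, hs, ← pow_add]
      · refine le_trans ?_ hrk
        rw [← Set.ncard_image_of_injective _ (Subtype.val_injective : Function.Injective (fun z : K => (z : P)))]
        refine Set.ncard_le_ncard ?_ (Set.toFinite _)
        rintro _ ⟨z, ⟨h2, h3⟩, rfl⟩
        exact ⟨h2, congrArg (fun z : K => (z : P)) h3⟩
    -- the centre `B` of `K` and the group `C` of the `p ^ f`-th powers of its elements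
    let B : Subgroup P := K ⊓ Subgroup.centralizer (K : Set P)
    have hBc : ∀ b ∈ B, ∀ k ∈ K, k * b = b * k := fun b hb k hk => Subgroup.mem_centralizer_iff.1 hb.2 k hk
    have hBB : ∀ b ∈ B, ∀ c ∈ B, b * c = c * b := fun b hb c hc => hBc c hc b hb.1
    let C : Subgroup P :=
      { carrier := {c | ∃ b ∈ B, b ^ p ^ f = c}
        one_mem' := ⟨1, B.one_mem, one_pow _⟩
        mul_mem' := by
          rintro _ _ ⟨b, hb, rfl⟩ ⟨c, hc, rfl⟩
          exact ⟨b * c, B.mul_mem hb hc, (show Commute b c from hBB b hb c hc).mul_pow _⟩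
        inv_mem' := by
          rintro _ ⟨b, hb, rfl⟩
          exact ⟨b⁻¹, B.inv_mem hb, inv_pow _ _⟩ }
    have hCB : C ≤ B := by
      rintro _ ⟨b, hb, rfl⟩
      exact B.pow_mem hb _
    have hCA : C ≤ A := by
      rintro _ ⟨b, hb, rfl⟩
      have hnor : (A.subgroupOf B).Normal := by
        constructor
        intro a ha c
        have h1 : c * a * c⁻¹ = a := by
          refine Subtype.ext ?_
          change (c : P) * (a : P) * (c : P)⁻¹ = a
          rw [hBB c c.2 a a.2, mul_assoc, mul_inv_cancel, mul_one]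
        rw [h1]
        exact ha
      have h1 : (⟨b, hb⟩ : B) ^ (A.subgroupOf B).index ∈ A.subgroupOf B := Subgroup.pow_index_mem _ _
      have h2 : (A.subgroupOf B).index ∣ p ^ n := by
        have h3 : (A.subgroupOf B).index ∣ Nat.card B := Subgroup.index_dvd_card _
        exact h3.trans (by rw [← hn]; exact Subgroup.card_subgroup_dvd_card B)
      obtain ⟨t, -, ht⟩ := (Nat.dvd_prime_pow hp).1 h2
      have h3 : p ^ t ≤ p ^ f := by
        rw [← ht]
        have h4 : A.relIndex B ≤ A.relIndex K := Subgroup.relIndex_le_of_le_right inf_le_left (by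
          have := Subgroup.index_ne_zero_of_finite (H := A.subgroupOf K)
          exact this)
        have h5 : A.relIndex K = p ^ f := by
          have h6 := Subgroup.card_mul_index (A.subgroupOf K)
          rw [Nat.card_congr (Subgroup.subgroupOfEquivOfLe hAK).toEquiv, hs, hK, show f + s = s + f by omega, pow_add] at h6
          exact Nat.eq_of_mul_eq_mul_left (pow_pos hp.pos _) h6
        rw [← h5]
        exact h4
      have h4 : t ≤ f := (Nat.pow_le_pow_iff_right hp.one_lt).1 h3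
      rw [ht] at h1
      have h5 : b ^ p ^ t ∈ A := h1
      obtain ⟨u, rfl⟩ := Nat.exists_eq_add_of_le h4
      rw [pow_add, pow_mul]
      exact A.pow_mem h5 _
    have hBn : ∀ g : P, ∀ b ∈ B, g * b * g⁻¹ ∈ B := by
      intro g b hb
      refine ⟨hKn.conj_mem b hb.1 g, Subgroup.mem_centralizer_iff.2 fun k hk => ?_⟩
      have h1 : g⁻¹ * k * g ∈ K := by
        have h2 := hKn.conj_mem k hk g⁻¹
        rwa [inv_inv] at h2
      have h2 := hBc b hb _ h1
      calc k * (g * b * g⁻¹) = g * ((g⁻¹ * k * g) * b) * g⁻¹ := by group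
        _ = g * (b * (g⁻¹ * k * g)) * g⁻¹ := by rw [h2]
        _ = g * b * g⁻¹ * k := by group
    have hfin := conj hp C (hP.to_subgroup C) (fun x hx y hy => hBB x (hCB hx) y (hCB hy)) ?_ g ?_ ?_
    · have hy : x ^ p ^ (f * (f + 1) / 2) ∈ B :=
        ⟨K.pow_mem (hAK hx) _, Subgroup.mem_centralizer_iff.2 fun k hk => hIH x hx k hk⟩
      have h1 := hfin ((x ^ p ^ (f * (f + 1) / 2)) ^ p ^ f) ⟨_, hy, rfl⟩
      rw [← pow_mul, ← pow_mul, ← pow_succ, ← pow_add] at h1
      have h2 : (f + 1) * (f + 1 + 1) / 2 = f * (f + 1) / 2 + (f + 1) := by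
        have h3 : (f + 1) * (f + 1 + 1) = f * (f + 1) + (f + 1) * 2 := by ring
        rw [h3, Nat.add_mul_div_right _ _ (by norm_num)]
      rw [h2]
      exact h1
    · have h1 : {x : P | x ∈ C ∧ x ^ p = 1} ⊆ {x : P | x ∈ A ∧ x ^ p = 1} := fun x hx => ⟨hCA hx.1, hx.2⟩
      exact ((Set.ncard_le_ncard h1 (Set.toFinite _)).trans hrk).trans_lt (Nat.pow_lt_pow_right hp.one_lt (by omega))
    · rintro _ ⟨b, hb, rfl⟩
      refine ⟨g * b * g⁻¹, hBn g b hb, ?_⟩
      rw [conj_pow]
    · intro c hc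
      have h1 : g ^ p ∈ K := by
        have h2 : g ^ K.index ∈ K := Subgroup.pow_index_mem K g
        rwa [hKi] at h2
      exact hBc c (hCB hc) _ h1

end Pool.Agent.ABS
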