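import Pool.Agent.helper7.ZB.DefsZ

/-!
# MP_baa4d7_al: for given `p`, `a`, `r` all but finitely many groups satisfy `LargeCentre`
-/

set_option autoImplicit false

namespace Pool.Agent.ZBS

/-- The number of the elements of order dividing `p ^ n` in a commutative group with at most `p ^ r` elements of order dividing `p`. -/
theorem card_pow_le {G : Type} [Group G] [Finite G] (p r : ℕ) (Z : Subgroup G) (hc : ∀ z ∈ Z, ∀ x ∈ Z, z * x = x * z)
    (hr : {u : G | u ∈ Z ∧ u ^ p = 1}.ncard ≤ p ^ r) (n : ℕ) : {u : G | u ∈ Z ∧ u ^ p ^ n = 1}.ncard ≤ p ^ (r * n) := by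
  classical
  have hf : ∀ s : Set G, s.Finite := fun s => Set.toFinite s
  induction n with
  | zero =>
    have h1 : {u : G | u ∈ Z ∧ u ^ p ^ 0 = 1} ⊆ {1} := by
      rintro u ⟨-, h2⟩
      rw [pow_zero, pow_one] at h2
      exact h2
    have h2 := Set.ncard_le_ncard h1 (hf _)
    rw [Set.ncard_singleton] at h2
    rw [mul_zero, pow_zero]
    exact h2
  | succ n ih =>
    have h1 := Finset.card_le_mul_card_image_of_maps_to (s := (hf {u : G | u ∈ Z ∧ u ^ p ^ (n + 1) = 1}).toFinset)
      (t := (hf {u : G | u ∈ Z ∧ u ^ p = 1}).toFinset) (f := fun u => u ^ p ^ n) ?_ (p ^ (r * n)) ?_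
    · rw [← Set.ncard_eq_toFinset_card _ (hf _), ← Set.ncard_eq_toFinset_card _ (hf _)] at h1
      refine h1.trans ((Nat.mul_le_mul_left _ hr).trans (le_of_eq ?_))
      rw [← pow_add]
      congr 1
    · intro u hu
      rw [Set.Finite.mem_toFinset] at hu ⊢
      obtain ⟨hu1, hu2⟩ := hu
      refine ⟨Z.pow_mem hu1 _, ?_⟩
      rw [← pow_mul, ← pow_succ]
      exact hu2
    · intro y _
      refine le_trans ?_ ih
      by_cases hy : ∃ u₀ ∈ Z, u₀ ^ p ^ n = y
      · obtain ⟨u₀, h2, h3⟩ := hy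
        rw [Set.ncard_eq_toFinset_card _ (hf _)]
        refine Finset.card_le_card_of_injOn (fun u => u₀⁻¹ * u) ?_ ?_
        · intro u hu
          rw [Finset.mem_coe, Finset.mem_filter, Set.Finite.mem_toFinset] at hu
          obtain ⟨⟨hu1, -⟩, hu3⟩ := hu
          rw [Finset.mem_coe, Set.Finite.mem_toFinset]
          refine ⟨Z.mul_mem (Z.inv_mem h2) hu1, ?_⟩
          have h4 : Commute u₀⁻¹ u := (show Commute u₀ u from hc u₀ h2 u hu1).inv_left
          rw [h4.mul_pow, inv_pow, h3]
          change y⁻¹ * u ^ p ^ n = 1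
          rw [hu3, inv_mul_cancel]
        · intro u _ v _ h
          exact mul_left_cancel h
      · have h2 : ∀ s : Finset G, (∀ u ∈ s, u ∈ Z) → {u ∈ s | u ^ p ^ n = y} = ∅ := by
          intro s hs
          refine Finset.filter_eq_empty_iff.2 fun u hu h => hy ⟨u, hs u hu, h⟩
        rw [h2 _ fun u hu => by
          rw [Set.Finite.mem_toFinset] at hu
          exact hu.1, Finset.card_empty]
        exact Nat.zero_le _

/-- For given `p`, `a` and `r` only finitely many groups `D` are excluded. -/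
theorem large_or {G : Type} [Group G] [Finite G] (p a r : ℕ) (D Z : Subgroup G) (h : CentralRank p a r D Z) :
    LargeCentre p a r D ∨ Nat.card D ≤ p ^ (a + r * (r * (a + boundExp p a r))) := by
  by_cases h1 : ∃ z ∈ Z, z ^ p ^ (r * (a + boundExp p a r)) ≠ 1
  · exact Or.inl ⟨Z, h, h1⟩
  · right
    push Not at h1
    have h2 := card_pow_le p r Z (fun z hz x hx => h.central z hz x (h.le hx)) h.rank (r * (a + boundExp p a r))
    have h3 : {u : G | u ∈ Z ∧ u ^ p ^ (r * (a + boundExp p a r)) = 1} = (Z : Set G) := by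
      ext u
      exact ⟨fun h4 => h4.1, fun h4 => ⟨h4, h1 u h4⟩⟩
    rw [h3] at h2
    have h4 : Nat.card Z ≤ p ^ (r * (r * (a + boundExp p a r))) := h2
    rw [pow_add]
    exact h.index.trans (Nat.mul_le_mul_left _ h4)

end Pool.Agent.ZBS
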