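import Pool.Agent.helper12.BR.DefsAB
import Pool.Agent.helper12.BR.CZF
import Pool.Agent.helper12.BR.ABS

/-!
# MP_baa4d7_al: abelian subgroups of bounded index and rank at most `p - 2` of the defect group
-/

set_option autoImplicit false

namespace Pool.Agent.ZBS

theorem pow_central {p r : ℕ} (hp : p.Prime) {G : Type} [Group G] [Finite G] {f : ℕ} {D A : Subgroup G} (hD : IsPGroup p D)
    (h : AbelianRank p f r D A) : ∀ x ∈ A, ∀ g ∈ D, g * x ^ p ^ cexp f = x ^ p ^ cexp f * g := by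
  have : Fact p.Prime := ⟨hp⟩
  obtain ⟨n, hn⟩ := IsPGroup.iff_card.1 hD
  have hA : Nat.card (A.subgroupOf D) = Nat.card A := Nat.card_congr (Subgroup.subgroupOfEquivOfLe h.le).toEquiv
  have h1 : (A.subgroupOf D).index ∣ p ^ n := by
    rw [← hn]
    exact Subgroup.index_dvd_card _
  obtain ⟨t, -, ht⟩ := (Nat.dvd_prime_pow hp).1 h1
  have h2 : Nat.card D = p ^ t * Nat.card (A.subgroupOf D) := by
    rw [← ht, mul_comm]
    exact (Subgroup.card_mul_index (A.subgroupOf D)).symm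
  have htf : t ≤ f := by
    have h3 := h.index
    rw [h2, hA] at h3
    exact (Nat.pow_le_pow_iff_right hp.one_lt).1 (Nat.le_of_mul_le_mul_right h3 Nat.card_pos)
  intro x hx g hg
  have h4 := Pool.Agent.ABS.central hp h.lt t D hD (A.subgroupOf D) (fun a ha b hb => Subtype.ext (h.comm a ha b hb)) h2 ?_
    ⟨x, h.le hx⟩ hx ⟨g, hg⟩
  · have h5 : g * x ^ p ^ (t * (t + 1) / 2) = x ^ p ^ (t * (t + 1) / 2) * g := congrArg (fun z : D => (z : G)) h4
    have h6 : t * (t + 1) / 2 ≤ cexp f := Nat.div_le_div_right (Nat.mul_le_mul htf (by omega))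
    obtain ⟨u, hu⟩ := Nat.exists_eq_add_of_le h6
    rw [hu, pow_add, pow_mul]
    exact (show Commute g (x ^ p ^ (t * (t + 1) / 2)) from h5).pow_right _
  · refine le_trans ?_ h.rank
    rw [← Set.ncard_image_of_injective _ (Subtype.val_injective : Function.Injective (fun z : D => (z : G)))]
    refine Set.ncard_le_ncard ?_ (Set.toFinite _)
    rintro _ ⟨z, ⟨h2, h3⟩, rfl⟩
    exact ⟨h2, congrArg (fun z : D => (z : G)) h3⟩

/-- The central subgroup of the powers. -/
theorem central_rank {p r : ℕ} (hp : p.Prime) {G : Type} [Group G] [Finite G] {f : ℕ} {D A : Subgroup G} (hD : IsPGroup p D)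
    (h : AbelianRank p f r D A) : ∃ Z : Subgroup G, CentralRank p (f + r * cexp f) r D Z ∧ ∀ x ∈ A, x ^ p ^ cexp f ∈ Z := by
  classical
  have hc := pow_central hp hD h
  let Z : Subgroup G :=
    { carrier := {c | ∃ b ∈ A, b ^ p ^ cexp f = c}
      one_mem' := ⟨1, A.one_mem, one_pow _⟩
      mul_mem' := by
        rintro _ _ ⟨b, hb, rfl⟩ ⟨c, hc, rfl⟩
        exact ⟨b * c, A.mul_mem hb hc, (show Commute b c from h.comm b hb c hc).mul_pow _⟩
      inv_mem' := by
        rintro _ ⟨b, hb, rfl⟩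
        exact ⟨b⁻¹, A.inv_mem hb, inv_pow _ _⟩ }
  have hZA : Z ≤ A := by
    rintro _ ⟨b, hb, rfl⟩
    exact A.pow_mem hb _
  refine ⟨Z, ⟨h.pos, hZA.trans h.le, ?_, ?_, ?_⟩, fun x hx => ⟨x, hx, rfl⟩⟩
  · rintro _ ⟨b, hb, rfl⟩ x hx
    exact (hc b hb x hx).symm
  · have hf : ∀ s : Set G, s.Finite := fun s => Set.toFinite s
    have h1 := Finset.card_le_mul_card_image_of_maps_to (s := (hf (A : Set G)).toFinset)
      (t := (hf (Z : Set G)).toFinset) (f := fun u => u ^ p ^ cexp f) ?_ (p ^ (r * cexp f)) ?_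
    · rw [← Set.ncard_eq_toFinset_card _ (hf _), ← Set.ncard_eq_toFinset_card _ (hf _)] at h1
      have h2 : Nat.card A ≤ p ^ (r * cexp f) * Nat.card Z := h1
      refine h.index.trans ?_
      rw [pow_add, mul_assoc]
      exact Nat.mul_le_mul_left _ h2
    · intro u hu
      rw [Set.Finite.mem_toFinset] at hu ⊢
      exact ⟨u, hu, rfl⟩
    · intro y hy
      rw [Set.Finite.mem_toFinset] at hy
      obtain ⟨u₀, h2, h3⟩ := hy
      have h3' : u₀ ^ p ^ cexp f = y := h3
      refine le_trans ?_ (card_pow_le p r A h.comm h.rank (cexp f))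
      rw [Set.ncard_eq_toFinset_card _ (hf _)]
      refine Finset.card_le_card_of_injOn (fun u => u₀⁻¹ * u) ?_ ?_
      · intro u hu
        rw [Finset.mem_coe, Finset.mem_filter, Set.Finite.mem_toFinset] at hu
        obtain ⟨hu1, hu3⟩ := hu
        have hu1' : u ∈ A := hu1
        rw [Finset.mem_coe, Set.Finite.mem_toFinset]
        refine ⟨A.mul_mem (A.inv_mem h2) hu1', ?_⟩
        have h4 : Commute u₀⁻¹ u := (show Commute u₀ u from h.comm u₀ h2 u hu1').inv_left
        rw [h4.mul_pow, inv_pow, h3']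
        change y⁻¹ * u ^ p ^ cexp f = 1
        rw [hu3, inv_mul_cancel]
      · intro u _ v _ h
        exact mul_left_cancel h
  · refine le_trans (Set.ncard_le_ncard ?_ (Set.toFinite _)) h.rank
    exact fun u hu => ⟨hZA hu.1, hu.2⟩

theorem large_of_centre {p : ℕ} {G : Type} [Group G] [Finite G] {D : Subgroup G} (h : BoundedCentre p D) :
    ∃ a r : ℕ, LargeCentre p a r D := by
  obtain ⟨a, r, Z, hZ, h1 | h1⟩ := h
  · exact ⟨a, r, Z, hZ, h1⟩
  · rcases large_or p a r D Z hZ with h2 | h2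
    · exact ⟨a, r, h2⟩
    · exact absurd h1 (not_lt.2 h2)

theorem large_of_abelian {p : ℕ} (hp : p.Prime) {G : Type} [Group G] [Finite G] {D : Subgroup G} (hD : IsPGroup p D)
    (h : BoundedAbelian p D) : ∃ a r : ℕ, LargeCentre p a r D := by
  obtain ⟨f, r, A, hA, h1⟩ := h
  obtain ⟨Z, hZ, hZ1⟩ := central_rank hp hD hA
  have h2 : ∃ z ∈ A, z ^ p ^ (cexp f + thr p (f + r * cexp f) r) ≠ 1 := by
    rcases h1 with h1 | h1
    · exact h1
    · by_contra h2
      push Not at h2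
      have h3 := card_pow_le p r A hA.comm hA.rank (cexp f + thr p (f + r * cexp f) r)
      have h4 : {u : G | u ∈ A ∧ u ^ p ^ (cexp f + thr p (f + r * cexp f) r) = 1} = (A : Set G) := by
        ext u
        exact ⟨fun h4 => h4.1, fun h4 => ⟨h4, h2 u h4⟩⟩
      rw [h4] at h3
      have h5 : Nat.card A ≤ p ^ (r * (cexp f + thr p (f + r * cexp f) r)) := h3
      refine absurd h1 (not_lt.2 ?_)
      rw [pow_add]
      exact hA.index.trans (Nat.mul_le_mul_left _ h5)
  obtain ⟨z, hz, hz1⟩ := h2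
  refine ⟨f + r * cexp f, r, Z, hZ, z ^ p ^ cexp f, hZ1 z hz, ?_⟩
  rw [← pow_mul, ← pow_add]
  exact hz1

end Pool.Agent.ZBS
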