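import Pool.Agent.helper7.ZD.DefsY
import Pool.Agent.helper12.BR.ABZ

/-!
# MP_baa4d7_al: abelian subgroups of bounded index and rank at most `p - 2` with a dominating invariant
-/

set_option autoImplicit false

namespace Pool.Agent.ZBS

/-- `D` has an abelian subgroup `A` (not necessarily central or normal) of index at most `p ^ f` and rank at most `r`, `1 ≤ r ≤ p - 2`, such
that, with `c = cexp f`, `a = f + r c`, for some `s` at most `p` elements of `A` of order dividing `p` are `p ^ (c + s)`-th powers of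
elements of `A`, and the exponent of `A` is larger than `p ^ (c + s + a + boundExp p a r + 1)`. For `A` the direct product of cyclic groups of
orders `p ^ n₁ ≥ p ^ n₂ ≥ ...` this says `n₂ ≤ c + s` and `c + s + a + boundExp p a r + 1 < n₁`. -/
def DominatingAbelian {G : Type} [Group G] (p : ℕ) (D : Subgroup G) : Prop :=
  ∃ (f r s : ℕ) (A : Subgroup G), AbelianRank p f r D A ∧
    {y : G | y ^ p = 1 ∧ ∃ z ∈ A, z ^ p ^ (cexp f + s) = y}.ncard ≤ p ∧
    ∃ z ∈ A, z ^ p ^ (cexp f + s + (f + r * cexp f) + boundExp p (f + r * cexp f) r + 1) ≠ 1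

/-- The central subgroup of the powers, more precisely. -/
theorem central_rank' {p r : ℕ} (hp : p.Prime) {G : Type} [Group G] [Finite G] {f : ℕ} {D A : Subgroup G} (hD : IsPGroup p D)
    (h : AbelianRank p f r D A) : ∃ Z : Subgroup G, CentralRank p (f + r * cexp f) r D Z ∧ ∀ z, z ∈ Z ↔ ∃ x ∈ A, x ^ p ^ cexp f = z := by
  let Z : Subgroup G :=
    { carrier := {c | ∃ b ∈ A, b ^ p ^ cexp f = c}
      one_mem' := ⟨1, A.one_mem, one_pow _⟩
      mul_mem' := by
        rintro _ _ ⟨b, hb, rfl⟩ ⟨c, hc, rfl⟩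
        exact ⟨b * c, A.mul_mem hb hc, (show Commute b c from h.comm b hb c hc).mul_pow _⟩
      inv_mem' := by
        rintro _ ⟨b, hb, rfl⟩
        exact ⟨b⁻¹, A.inv_mem hb, inv_pow _ _⟩ }
  obtain ⟨Z', hZ', hZ1⟩ := central_rank hp hD h
  have hc := pow_central hp hD h
  have hZA : Z ≤ A := by
    rintro _ ⟨b, hb, rfl⟩
    exact A.pow_mem hb _
  refine ⟨Z, ⟨h.pos, hZA.trans h.le, ?_, ?_, ?_⟩, fun z => Iff.rfl⟩
  · rintro _ ⟨b, hb, rfl⟩ x hx
    exact (hc b hb x hx).symm
  · have hf : ∀ s : Set G, s.Finite := fun s => Set.toFinite s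
    classical
    have h1 := Finset.card_le_mul_card_image_of_maps_to (s := (hf (A : Set G)).toFinset)
      (t := (hf (Z : Set G)).toFinset) (f := fun u => u ^ p ^ cexp f) ?_ (p ^ (r * cexp f)) ?_
    · rw [← Set.ncard_eq_toFinset_card _ (hf _), ← Set.ncard_eq_toFinset_card _ (hf _)] at h1
      have h2 : Nat.card A ≤ p ^ (r * cexp f) * Nat.card Z := h1
      refine h.index.trans ?_
      rw [pow_add, mul_assoc]
      exact Nat.mul_le_mul_left _ h2
    · intro u hu
      rw [Set.Finite.mem_toFinset] at hu ⊢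
      exact ⟨u, hu, rfl⟩
    · intro y hy
      rw [Set.Finite.mem_toFinset] at hy
      obtain ⟨u₀, h2, h3⟩ := hy
      have h3' : u₀ ^ p ^ cexp f = y := h3
      refine le_trans ?_ (card_pow_le p r A h.comm h.rank (cexp f))
      rw [Set.ncard_eq_toFinset_card _ (hf _)]
      refine Finset.card_le_card_of_injOn (fun u => u₀⁻¹ * u) ?_ ?_
      · intro u hu
        rw [Finset.mem_coe, Finset.mem_filter, Set.Finite.mem_toFinset] at hu
        obtain ⟨hu1, hu3⟩ := hu
        have hu1' : u ∈ A := hu1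
        rw [Finset.mem_coe, Set.Finite.mem_toFinset]
        refine ⟨A.mul_mem (A.inv_mem h2) hu1', ?_⟩
        have h4 : Commute u₀⁻¹ u := (show Commute u₀ u from h.comm u₀ h2 u hu1').inv_left
        rw [h4.mul_pow, inv_pow, h3']
        change y⁻¹ * u ^ p ^ cexp f = 1
        rw [hu3, inv_mul_cancel]
      · intro u _ v _ h
        exact mul_left_cancel h
  · refine le_trans (Set.ncard_le_ncard ?_ (Set.toFinite _)) h.rank
    exact fun u hu => ⟨hZA hu.1, hu.2⟩

/-- The reduction to a central subgroup. -/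
theorem dominating_of_abelian {p : ℕ} (hp : p.Prime) {G : Type} [Group G] [Finite G] {D : Subgroup G} (hD : IsPGroup p D)
    (h : DominatingAbelian p D) : DominatingCentre p D := by
  obtain ⟨f, r, s, A, hA, h1, z, hz, hz1⟩ := h
  obtain ⟨Z, hZ, hZ1⟩ := central_rank' hp hD hA
  refine ⟨f + r * cexp f, r, s + (f + r * cexp f), Nat.le_add_left _ _, Z, hZ, ?_, z ^ p ^ cexp f, (hZ1 _).2 ⟨z, hz, rfl⟩, ?_⟩
  · refine le_trans (Set.ncard_le_ncard ?_ (Set.toFinite _)) h1
    rintro y ⟨h2, w, hw, h3⟩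
    obtain ⟨x, hx, rfl⟩ := (hZ1 w).1 hw
    refine ⟨h2, x, hx, ?_⟩
    rw [Nat.add_sub_cancel, ← pow_mul, ← pow_add] at h3
    exact h3
  · rw [← pow_mul, ← pow_add]
    have h2 : cexp f + (s + (f + r * cexp f) + boundExp p (f + r * cexp f) r + 1) =
        cexp f + s + (f + r * cexp f) + boundExp p (f + r * cexp f) r + 1 := by omega
    rw [h2]
    exact hz1

end Pool.Agent.ZBS
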