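import Pool.Agent.helper12.BR.DVL
import Pool.Agent.helper33.LE.BDA
import Pool.Agent.helper23.BR.HEX

/-!
# Project BR (MP_baa4d7_al): the sharper form `l(B) ≤ |I| |D : K|` of BOUND-R
-/

set_option autoImplicit false

namespace Pool.Agent.BR

open Pool.Agent.helper58.DC Pool.Agent.DI Pool.Agent.GR Pool.Agent.OB Pool.Agent.DR Pool.Agent.FI Pool.Agent.FI3 Pool.Agent.FI4 Pool.Agent.LE

/-- The hypothesis: `iI < p ^ (h + 1)` and `iI |D : D ^ (p ^ (h + 1))| ≤ p ^ c` for some `h`. -/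
def HIY (p c : ℕ) : HP := fun _ _ _ D T => ∃ (h : ℕ) (K : Subgroup _), (∀ y, y ∈ K ↔ ∃ d ∈ D, d ^ p ^ (h + 1) = y) ∧
  (cz D).relIndex T < p ^ (h + 1) ∧ (cz D).relIndex T * K.relIndex D ≤ p ^ c

theorem HIY_her (p c : ℕ) : Her p (HIY p c) := by
  constructor
  · rintro G _ _ D T N hp hDN hCN hCT hT ⟨h, K, hK, h1, h2⟩
    have h3 := (HerT_idx (p := p) ((cz D).relIndex T)).sub G D T N hp hDN hCN hCT hT le_rfl
    refine ⟨h, K.subgroupOf N, fun y => ?_, lt_of_le_of_lt h3 h1, ?_⟩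
    · rw [Subgroup.mem_subgroupOf, hK]
      constructor
      · rintro ⟨d, hd, he⟩
        exact ⟨⟨d, hDN hd⟩, Subgroup.mem_subgroupOf.2 hd, Subtype.ext he⟩
      · rintro ⟨d, hd, he⟩
        exact ⟨(d : G), Subgroup.mem_subgroupOf.1 hd, congrArg Subtype.val he⟩
    · rw [Subgroup.relIndex_subgroupOf hDN]
      exact le_trans (Nat.mul_le_mul_right _ h3) h2
  · rintro G _ _ D T g h4 h5 h6 ⟨h, K, hK, h1, h2⟩
    have h3 := (HerT_idx (p := p) ((cz D).relIndex T)).cj G D T g h4 h5 h6 le_rfl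
    refine ⟨h, cjS g K, fun y => ?_, lt_of_le_of_lt h3 h1, ?_⟩
    · rw [mem_cjS, hK]
      constructor
      · rintro ⟨d, hd, he⟩
        refine ⟨g * d * g⁻¹, mem_cjS.2 ?_, ?_⟩
        · have h7 : g⁻¹ * (g * d * g⁻¹) * g = d := by group
          rw [h7]
          exact hd
        · rw [conj_pow, he]
          group
      · rintro ⟨d, hd, he⟩
        refine ⟨g⁻¹ * d * g, mem_cjS.1 hd, ?_⟩
        have h7 : g⁻¹ * d * g = g⁻¹ * d * (g⁻¹)⁻¹ := by rw [inv_inv]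
        rw [h7, conj_pow, he]
        group
    · have e1 : (cjS g K).relIndex (cjS g D) = K.relIndex D :=
        Subgroup.relIndex_map_map_of_injective K D (MulAut.conj g).injective
      rw [e1]
      exact le_trans (Nat.mul_le_mul_right _ h3) h2

/-- The sum of the `|n_l(ψ, ψ₀)|²` over the `l` which are trivial on `K` is at least `|I|`. -/
theorem CT3_one (hBPQ : BPQ_stmt) (hPIV : PIV_stmt) (hCIN : CIN_stmt) (hCTP : CTP_stmt) (hPER : PER_stmt)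
    (hHPT : HPT_stmt) (hPPL : PPL_stmt)
    {p : ℕ} {M : Ideal (integralClosure ℤ ℂ)} (hS : Setup p M) (hp2 : p ≠ 2) {G : Type} [Group G] [Finite G]
    {D : Subgroup G} {x : G} {θ χ : G → ℂ} (lo : LoA p M D x θ χ) {h : ℕ} {K : Subgroup G}
    (hK : ∀ c : G, c ∈ K ↔ ∃ d ∈ D, d ^ p ^ (h + 1) = c) {m : ℕ} (hm : Gm2 p (Nat.card G) m)
    {ψ ψ₀ : G → ℂ} (hψ : ψ ∈ Bl M (⊤ : Subgroup G) θ) (hψm : PR m ψ) (hψ₀ : ψ₀ ∈ Bl M (⊤ : Subgroup G) θ) (hψ₀m : PR m ψ₀)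
    {N : ℤ} (hN : (Nat.card D : ℂ) * PP p M θ ψ ψ₀ 1 = (N : ℂ)) (hNp : ¬ ((p : ℤ) ^ (h + 1)) ∣ N)
    (F : Finset (D →* ℂˣ)) (hF : ∀ l, l ∈ F ↔ ∀ u ∈ K.subgroupOf D, l u = 1) :
    (iI M D θ : ℝ) ≤ ∑ l ∈ F, ‖nl p M D θ l ψ ψ₀‖ ^ 2 := by
  classical
  have hp := hS.pr
  have hcom := lo.rt.com
  have hpg : IsPGroup p D := lo.rt.dfa.pgrp
  have nor : TT M D θ ≤ nz D := fun t ht => ht.1
  letI := ALT_inst D hcom
  have hci := hCIN p M hp G D θ hcom hpg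
  have hPEl : ∀ u ∈ D, PEl p u := by
    intro u hu
    obtain ⟨k, hk⟩ := hpg ⟨u, hu⟩
    exact ⟨k, congrArg (fun d : D => (d : G)) hk⟩
  have hn : ∀ l : D →* ℂˣ, ∃ n : ℤ, nl p M D θ l ψ ψ₀ = (n : ℂ) := fun l =>
    hBPQ p M hS G D x θ χ lo l ψ hψ ψ₀ hψ₀
  choose n hn using hn
  have hpI : ¬ p ∣ iI M D θ := lo.bet
  have hNI : ¬ ((p : ℤ) ^ (h + 1)) ∣ (iI M D θ : ℤ) * N := by
    intro h0
    apply hNp
    have h1 : IsCoprime ((p : ℤ) ^ (h + 1)) (iI M D θ : ℤ) := by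
      apply IsCoprime.pow_left
      rw [Int.isCoprime_iff_gcd_eq_one, Int.gcd_natCast_natCast]
      exact (Nat.Prime.coprime_iff_not_dvd hp).2 hpI
    exact h1.dvd_of_dvd_mul_left h0
  obtain ⟨l₀, hl₀, hn₀⟩ := PU2_cnt hCTP hPER p hp hp2 h D hpg (K.subgroupOf D) (fun c => by
      rw [Subgroup.mem_subgroupOf, hK]
      constructor
      · rintro ⟨d, hd, e⟩
        exact ⟨⟨d, hd⟩, Subtype.ext e⟩
      · rintro ⟨d, e⟩
        exact ⟨d, d.2, congrArg (fun d : D => (d : G)) e⟩)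
    (fun u => ci M D θ u * PP p M θ ψ ψ₀ u) n (fun l => by
      rw [← hn l]
      unfold nl
      refine finsum_congr fun u => ?_
      ring) (fun u => by
      have h1 : ¬ p ∣ 1 + p := by
        intro h
        have h2 : p ∣ 1 := (Nat.dvd_add_left (dvd_refl p)).1 h
        exact hp.one_lt.ne' (Nat.dvd_one.1 h2)
      have h2 := (hci.2 u u.2).2 (1 + p) h1
      have h3 := hPIV p M hS G θ m hm ψ hψ.1 hψm ψ₀ hψ₀.1 hψ₀m u (hPEl u u.2) (1 + p) (by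
        show (1 + p) % p = 1 % p
        simp)
      show ci M D θ ((u : G) ^ (1 + p)) * PP p M θ ψ ψ₀ ((u : G) ^ (1 + p)) = _
      rw [h2, h3]) ((iI M D θ : ℤ) * N) (by
      show (Nat.card D : ℂ) * (ci M D θ 1 * PP p M θ ψ ψ₀ 1) = _
      rw [hci.1]
      push_cast
      rw [← hN]
      ring) hNI
  -- the orbit of `l₀`
  obtain ⟨O, hOF, hO, hcard⟩ := DVL_orb nor l₀ F (fun t => by
    rw [hF]
    intro u hu
    show l₀ (ALT_rho D (TT M D θ) nor t u) = 1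
    refine hl₀ _ ?_
    rw [Subgroup.mem_subgroupOf] at hu ⊢
    rw [ALT_rho_apply]
    obtain ⟨d, hd, he⟩ := (hK _).1 hu
    refine (hK _).2 ⟨(t : G) * d * (t : G)⁻¹, (Subgroup.mem_normalizer_iff.1 (nor t.2) d).1 hd, ?_⟩
    rw [conj_pow, he])
  have hdv := DVL_le hHPT hPPL hS lo nor hψ hψ₀ l₀ (n l₀) (hn l₀) hn₀
  have hCT : cz D ≤ TT M D θ := cz_le_TT
  have hT : Nat.card (TT M D θ) = Nat.card (cz D) * iI M D θ := by
    have h1 := Subgroup.relIndex_mul_relIndex (⊥ : Subgroup G) (cz D) (TT M D θ) bot_le hCT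
    rw [Subgroup.relIndex_bot_left, Subgroup.relIndex_bot_left] at h1
    exact h1.symm
  have h1 : iI M D θ ≤ (n l₀).natAbs * O.card := by
    have h2 : Nat.card (cz D) * iI M D θ ≤ Nat.card (cz D) * ((n l₀).natAbs * O.card) := by
      rw [← hT]
      calc Nat.card (TT M D θ) ≤ Nat.card (Sl D (TT M D θ) nor l₀) * O.card := hcard
        _ ≤ (Nat.card (cz D) * (n l₀).natAbs) * O.card := Nat.mul_le_mul_right _ hdv
        _ = _ := by ring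
    exact Nat.le_of_mul_le_mul_left h2 Nat.card_pos
  have h2 : ∀ l ∈ O, ‖nl p M D θ l ψ ψ₀‖ ^ 2 = ((n l₀).natAbs : ℝ) ^ 2 := by
    intro l hl
    obtain ⟨t, rfl⟩ := hO l hl
    rw [DVL_inv hHPT hS lo nor hψ hψ₀ l₀ t, hn l₀, Complex.norm_intCast, sq_abs, Nat.cast_natAbs, Int.cast_abs, sq_abs]
  have h3 : 1 ≤ (n l₀).natAbs := Int.natAbs_pos.2 hn₀
  calc (iI M D θ : ℝ) ≤ (((n l₀).natAbs * O.card : ℕ) : ℝ) := by exact_mod_cast h1
    _ ≤ (((n l₀).natAbs ^ 2 * O.card : ℕ) : ℝ) := by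
        have h4 : (n l₀).natAbs * O.card ≤ (n l₀).natAbs ^ 2 * O.card := by
          refine Nat.mul_le_mul_right _ ?_
          rw [sq]
          exact Nat.le_mul_of_pos_left _ h3
        exact_mod_cast h4
    _ = ∑ l ∈ O, ‖nl p M D θ l ψ ψ₀‖ ^ 2 := by
        rw [Finset.sum_congr rfl h2, Finset.sum_const, nsmul_eq_mul]
        push_cast
        ring
    _ ≤ ∑ l ∈ F, ‖nl p M D θ l ψ ψ₀‖ ^ 2 :=
        Finset.sum_le_sum_of_subset_of_nonneg hOF fun l _ _ => by positivity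

/-- **CT3**. -/
theorem CT3 (hBPQ : BPQ_stmt) (hPS0 : PS0_stmt) (hPIV : PIV_stmt) (hCIN : CIN_stmt) (hCTP : CTP_stmt) (hPER : PER_stmt)
    (hHPT : HPT_stmt) (hPPL : PPL_stmt) (hPRL : PRL_stmt)
    (p : ℕ) (M : Ideal (integralClosure ℤ ℂ)) (hS : Setup p M) (hp2 : p ≠ 2) (G : Type) [Group G] [Finite G]
    (D : Subgroup G) (x : G) (θ χ : G → ℂ) (lo : LoA p M D x θ χ) (h : ℕ) (hI : iI M D θ < p ^ (h + 1))
    (K : Subgroup G) (hK : ∀ c : G, c ∈ K ↔ ∃ d ∈ D, d ^ p ^ (h + 1) = c) (m : ℕ) (hm : Gm2 p (Nat.card G) m) :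
    {ψ : G → ℂ | ψ ∈ Bl M (⊤ : Subgroup G) θ ∧ PR m ψ}.ncard ≤ iI M D θ * K.relIndex D := by
  classical
  obtain ⟨ψ₀, hψ₀, hψ₀m, hP⟩ := hPS0 p M hS hp2 G D x θ χ lo m hm
  have hfin : (Bl M (⊤ : Subgroup G) θ).Finite := (IrrOn_fin (⊤ : Subgroup G)).subset fun φ h => h.1
  -- the characters trivial on `K`
  letI := ALT_inst D lo.rt.com
  have h1 := (hPER D (K.subgroupOf D)).1
  have h2 : Nat.card {w : D →* ℂˣ // ∀ u ∈ K.subgroupOf D, w u = 1} ≠ 0 := by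
    rw [h1]
    exact Subgroup.index_ne_zero_of_finite
  have h3 : Finite {w : D →* ℂˣ // ∀ u ∈ K.subgroupOf D, w u = 1} := Nat.finite_of_card_ne_zero h2
  have h3' : {w : D →* ℂˣ | ∀ u ∈ K.subgroupOf D, w u = 1}.Finite := h3
  obtain ⟨F, hF⟩ : ∃ F : Finset (D →* ℂˣ), ∀ l, l ∈ F ↔ ∀ u ∈ K.subgroupOf D, l u = 1 :=
    ⟨h3'.toFinset, fun l => by rw [Set.Finite.mem_toFinset]; rfl⟩
  have hFc : F.card = K.relIndex D := by
    have h4 : Nat.card {w : D →* ℂˣ // ∀ u ∈ K.subgroupOf D, w u = 1} = F.card := Nat.subtype_card F hF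
    rw [← h4, h1]
    rfl
  have hX : {ψ : G → ℂ | ψ ∈ Bl M (⊤ : Subgroup G) θ ∧ PR m ψ} = ((hfin.toFinset.filter (fun ψ => PR m ψ) : Finset (G → ℂ)) : Set (G → ℂ)) := by
    ext ψ
    simp
  rw [hX, Set.ncard_coe_finset]
  have hI0 : 0 < iI M D θ := Nat.pos_of_ne_zero (by unfold iI; exact Subgroup.index_ne_zero_of_finite)
  have h5 : ((hfin.toFinset.filter (fun ψ => PR m ψ)).card : ℝ) * iI M D θ ≤ ((iI M D θ * K.relIndex D : ℕ) : ℝ) * iI M D θ := by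
    calc ((hfin.toFinset.filter (fun ψ => PR m ψ)).card : ℝ) * iI M D θ
        = ∑ ψ ∈ hfin.toFinset.filter (fun ψ => PR m ψ), (iI M D θ : ℝ) := by simp
      _ ≤ ∑ ψ ∈ hfin.toFinset.filter (fun ψ => PR m ψ), ∑ l ∈ F, ‖nl p M D θ l ψ ψ₀‖ ^ 2 := by
          refine Finset.sum_le_sum fun ψ hψ => ?_
          obtain ⟨hψ1, hψ2⟩ := Finset.mem_filter.1 hψ
          have hψ3 : ψ ∈ Bl M (⊤ : Subgroup G) θ := (Set.Finite.mem_toFinset hfin).1 hψ1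
          obtain ⟨N, hN, hNp⟩ := hP h hI ψ hψ3
          exact CT3_one hBPQ hPIV hCIN hCTP hPER hHPT hPPL hS hp2 lo hK hm hψ3 hψ2 hψ₀ hψ₀m hN hNp F hF
      _ ≤ ∑ ψ ∈ hfin.toFinset, ∑ l ∈ F, ‖nl p M D θ l ψ ψ₀‖ ^ 2 :=
          Finset.sum_le_sum_of_subset_of_nonneg (Finset.filter_subset _ _) fun ψ _ _ => Finset.sum_nonneg fun l _ => by positivity
      _ = ∑ l ∈ F, ∑ ψ ∈ hfin.toFinset, ‖nl p M D θ l ψ ψ₀‖ ^ 2 := Finset.sum_comm
      _ ≤ ∑ l ∈ F, (iI M D θ : ℝ) ^ 2 := by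
          refine Finset.sum_le_sum fun l _ => ?_
          have h6 := hPRL p M hS G D x θ χ lo l ψ₀ hψ₀
          rw [finsum_mem_eq_finite_toFinset_sum _ hfin] at h6
          exact h6
      _ = ((iI M D θ * K.relIndex D : ℕ) : ℝ) * iI M D θ := by
          rw [Finset.sum_const, nsmul_eq_mul, hFc]
          push_cast
          ring
  have h6 : (0 : ℝ) < iI M D θ := by exact_mod_cast hI0
  have h7 := le_of_mul_le_mul_right h5 h6
  exact_mod_cast h7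

/-- The bound `l(B) ≤ p ^ c` under `HIY` (copy of BD3, helper49). -/
theorem BD4 (hBPQ : BPQ_stmt) (hPS0 : PS0_stmt) (hPIV : PIV_stmt) (hCIN : CIN_stmt) (hCTP : CTP_stmt) (hPER : PER_stmt)
    (hHPT : HPT_stmt) (hPPL : PPL_stmt) (hPRL : PRL_stmt)
    (hLOA : LOA_stmt) (hGM2 : GM2_stmt) (hCNL : CNL_stmt) (hLLN : LLN_stmt) (hTPR : FI.TPR_stmt)
    (p : ℕ) (M : Ideal (integralClosure ℤ ℂ)) (hS : Setup p M) (hp2 : p ≠ 2) (c : ℕ) : BDH p M (HIY p c) (p ^ c) := by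
  intro G _ _ D x θ χ hR hH
  obtain ⟨h, K, hK, hI1, hI2⟩ := hH
  obtain ⟨lo, m, l, hm, hl, hl1, hlX⟩ := BDA_le hLOA hGM2 hCNL hLLN hTPR p M hS hp2 G D x θ χ hR
  obtain ⟨-, hI, -⟩ := hTPR p M hS G
  have h0 : SB M ⊤ θ χ := (hI θ χ).1 hR.ind
  have hBl : Blk M χ (⊤ : Subgroup G) = Bl M ⊤ θ := by
    ext ψ
    constructor
    · rintro ⟨h1, h2⟩
      exact ⟨h1, ((hI ψ χ).1 h2).trans h0.symm⟩
    · rintro ⟨h1, h2⟩
      exact ⟨h1, (hI ψ χ).2 (h2.trans h0)⟩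
  have hmain := CT3 hBPQ hPS0 hPIV hCIN hCTP hPER hHPT hPPL hPRL p M hS hp2 G D x θ χ lo h hI1 K hK m hm
  rw [← hBl] at hmain
  exact ⟨l, hl, hl1, hlX.trans (hmain.trans hI2)⟩

/-- BD4, the statement. -/
def BD4_stmt : Prop :=
  ∀ (p : ℕ) (M : Ideal (integralClosure ℤ ℂ)), Setup p M → p ≠ 2 → ∀ c : ℕ, BDH p M (HIY p c) (p ^ c)

end Pool.Agent.BR
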