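import Pool.Agent.helper59.BR.SpecH

/-!
# Row PIV (MP_baa4d7_al, project BR): invariance of `PP` under the exponents `≡ 1` modulo `p`
-/

set_option autoImplicit false

namespace Pool.Agent.BR

open Pool.Agent.helper58.DC Pool.Agent.DI Pool.Agent.GR Pool.Agent.OB Pool.Agent.DR Pool.Agent.FI Pool.Agent.FI3 Pool.Agent.FI4 Pool.Agent.LE

theorem PIVh_cz {G : Type} [Group G] (p : ℕ) (hp : p.Prime) (u : G) (hu : PEl p u) (s : ℕ) (hs : s ≡ 1 [MOD p]) :
    Cz (⊤ : Subgroup G) (u ^ s) = Cz (⊤ : Subgroup G) u := by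
  obtain ⟨k, hk⟩ := hu
  have h1 : ¬ p ∣ s := by
    intro h
    have h2 : 1 % p = 0 := by
      rw [← hs]
      exact Nat.mod_eq_zero_of_dvd h
    rw [Nat.mod_eq_of_lt hp.one_lt] at h2
    omega
  have h2 : Nat.Coprime s (orderOf u) := by
    have h3 : orderOf u ∣ p ^ k := orderOf_dvd_of_pow_eq_one hk
    exact Nat.Coprime.coprime_dvd_right h3 (((Nat.Prime.coprime_iff_not_dvd hp).2 h1).symm.pow_right k)
  obtain ⟨t, ht⟩ := exists_pow_eq_self_of_coprime h2
  ext g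
  rw [mem_Cz, mem_Cz]
  refine and_congr_right fun _ => ⟨fun h => ?_, fun h => ?_⟩
  · have h4 := (show Commute (u ^ s) g from h).pow_left t
    rw [ht] at h4
    exact h4
  · exact (show Commute u g from h).pow_left s

theorem PIVh (hHGR : HGR_stmt) (hGP2 : GP2_stmt) : PIV_stmt := by
  intro p M hS G _ _ θ m hm ψ hψ hψm ψ' hψ' hψ'm u hu s hs
  have hC := PIVh_cz p hS.pr u hu s hs
  rw [hHGR p M hS G θ (u ^ s) ψ hψ ψ' hψ', hHGR p M hS G θ u ψ hψ ψ' hψ', hC]
  have key : ∀ φ : G → ℂ, PR m φ → ∀ η : G → ℂ, az p (Cz (⊤ : Subgroup G) u) η φ (u ^ s) = az p (Cz (⊤ : Subgroup G) u) η φ u := by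
    intro φ hφ η
    unfold az
    congr 1
    refine finsum_mem_congr rfl fun v hv => ?_
    congr 1
    have hc : u * v = v * u := (mem_Cz.1 hv.1).2
    exact hGP2 p hS.pr G m hm φ hφ u v hc hu hv.2 s hs
  refine finsum_mem_congr rfl fun η _ => ?_
  rw [key ψ hψm, key ψ' hψ'm]

end Pool.Agent.BR
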