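import Mathlib
import Pool.Agent.helper12.LE.DefsZ

/-!
# Blocks with abelian defect group of large exponent: the conditions of the statement, version 3
-/

set_option autoImplicit false

namespace Pool.Agent.FIL

open Pool.Agent.helper58.DC Pool.Agent.FIW Pool.Agent.FIV

variable {G : Type} [Group G]

/-- The rank of the abelian `p`-group `D` is at most `r`: `D` has at most `p ^ r` elements `u` with `u ^ p = 1`. -/
def RankLe (p : ℕ) (D : Subgroup G) (r : ℕ) : Prop :=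
  {u : G | u ∈ D ∧ u ^ p = 1}.ncard ≤ p ^ r

/-- `i < p ^ k`, and `i |D : D ^ (p ^ k)| ≤ p ^ c`, where `D ^ (p ^ k)` is the group of the `p ^ k`-th powers of the elements of `D`. -/
def PowerIndex (p : ℕ) (D : Subgroup G) (i k c : ℕ) : Prop :=
  i < p ^ k ∧ i * Nat.card D ≤ p ^ c * {u : G | ∃ d ∈ D, d ^ p ^ k = u}.ncard

/-- One of the following (`v = 0` is the main case):
* (1) `D ≅ C_(p ^ a) × C_(p ^ b)`, `a > b ≥ 1`, `a ≥ 2 + v`, or `D ≅ C_(p ^ e) × C_(p ^ e)`, `e ≥ 3 + v`, or `e ≥ 2 + v` and `I` is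
  abelian;
* (2) for some `k` and some `c ≥ 1`, `|I| < p ^ k`, `|I| |D : D ^ (p ^ k)| ≤ p ^ c`, and the exponent of `D` is at least `p ^ (c + v)`;
  or (no condition on `I`) `D` has rank at most `r`, `r ≥ 1`, and its exponent is at least `p ^ (c + v)`, where `2 c ≥ r (r + 1) ^ 2`:
  these are, for given `p`, `r` and `v`, all abelian `p`-groups `D` of rank at most `r`, except finitely many;
* (3) `D` has rank `r ≥ 1`, all invariants of `D` are at least `p ^ j`, `j ≥ 1`, the exponent of `D` is at least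
  `p ^ (j (r - 1) + 1 + v)`, and `|I| ≤ (p - 1) p ^ (j - 1)`, or (no condition on `I`) `r ≤ j` and `r (r + 1) < 4 j`;
* (4) for some `c ≥ 1` the exponent of `D` is at least `p ^ (c + v)`, and `p |D| ^ 2 ≤ p ^ (3 c)`. -/
def LargeAbelian (p : ℕ) (M : Ideal (integralClosure ℤ ℂ)) (D : Subgroup G) (θ : G → ℂ) (v : ℕ) : Prop :=
  (∃ a b : ℕ, 1 ≤ b ∧ b < a ∧ 2 + v ≤ a ∧ Invariants p D ![a, b]) ∨
  (∃ e : ℕ, Invariants p D ![e, e] ∧ (3 + v ≤ e ∨ (2 + v ≤ e ∧ AbelianQuotient M D θ))) ∨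
  (∃ c k i : ℕ, 1 ≤ c ∧ Exponent p D (c + v) ∧ QuotientOrder M D θ i ∧ PowerIndex p D i k c) ∨
  (∃ r c : ℕ, 1 ≤ r ∧ RankLe p D r ∧ r * (r + 1) ^ 2 ≤ 2 * c ∧ Exponent p D (c + v)) ∨
  (∃ (r : ℕ) (a : Fin r → ℕ) (j i : ℕ), Invariants p D a ∧ QuotientOrder M D θ i ∧ 1 ≤ r ∧ 1 ≤ j ∧ (∀ k, j ≤ a k) ∧
    (∃ k, j * (r - 1) + 1 + v ≤ a k) ∧ (i ≤ (p - 1) * p ^ (j - 1) ∨ (r ≤ j ∧ r * (r + 1) < 4 * j))) ∨
  ∃ c : ℕ, 1 ≤ c ∧ Exponent p D (c + v) ∧ p * Nat.card D ^ 2 ≤ p ^ (3 * c)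

/-- One of the following:
* (1) `D ≅ C_(p ^ a) × C_(p ^ b)`, `a > b ≥ 2`, or `D ≅ C_(p ^ e) × C_(p ^ e)`, `e ≥ 3`, or `e = 2` and `I` is abelian;
* (2) `D` has rank `r ≥ 1`, all invariants of `D` are at least `p ^ c`, `c ≥ 1`, and for some `k`, `|I| < p ^ k` and
  `|I| |D : D ^ (p ^ k)| ≤ p ^ c`, or (no condition on `I`) `2 c ≥ r (r + 1) ^ 2`;
* (3) `D` has rank `r ≥ 1`, all invariants of `D` are at least `p ^ j` and `p ^ (j (r - 1) + 1)`, `j ≥ 1`,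
  and `|I| ≤ (p - 1) p ^ (j - 1)`, or (no condition on `I`) `r ≤ j` and `r (r + 1) < 4 j`. -/
def LargeAbelianN (p : ℕ) (M : Ideal (integralClosure ℤ ℂ)) (D : Subgroup G) (θ : G → ℂ) : Prop :=
  RankTwoDistinct p D 2 ∨ (∃ e : ℕ, Invariants p D ![e, e] ∧ (3 ≤ e ∨ (2 ≤ e ∧ AbelianQuotient M D θ))) ∨
  (∃ (r : ℕ) (a : Fin r → ℕ) (c k i : ℕ), Invariants p D a ∧ QuotientOrder M D θ i ∧ 1 ≤ r ∧ 1 ≤ c ∧ (∀ l, c ≤ a l) ∧
    (PowerIndex p D i k c ∨ r * (r + 1) ^ 2 ≤ 2 * c)) ∨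
  ∃ (r : ℕ) (a : Fin r → ℕ) (j i : ℕ), Invariants p D a ∧ QuotientOrder M D θ i ∧ 1 ≤ r ∧ 1 ≤ j ∧ (∀ k, j ≤ a k) ∧
    (∀ k, j * (r - 1) + 1 ≤ a k) ∧ (i ≤ (p - 1) * p ^ (j - 1) ∨ (r ≤ j ∧ r * (r + 1) < 4 * j))

end Pool.Agent.FIL
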