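import Mathlib
import Pool.Agent.helper12.LE.FinZ
import Pool.Agent.helper12.BR.StmR
import Pool.Agent.helper12.BR.CT3

/-!
# Project BR (MP_baa4d7_al): the final theorem of `LargeExponent`, version 3 (with BOUND-R)
-/

set_option autoImplicit false

namespace Pool.Agent.LE

open Pool.Agent.helper58.DC Pool.Agent.DI Pool.Agent.GR Pool.Agent.OB Pool.Agent.DR Pool.Agent.FI Pool.Agent.FI3 Pool.Agent.FI4 Pool.Agent.FIL

theorem FinR_card {G : Type} [Group G] [Finite G] (D : Subgroup G) (P : D → Prop) (Q : G → Prop) (h : ∀ d : D, P d ↔ Q d) :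
    Nat.card {d : D // P d} = {u : G | u ∈ D ∧ Q u}.ncard := by
  have h1 : {u : G | u ∈ D ∧ Q u} = (fun d : D => (d : G)) '' {d : D | P d} := by
    ext u
    constructor
    · rintro ⟨h2, h3⟩
      exact ⟨⟨u, h2⟩, (h ⟨u, h2⟩).2 h3, rfl⟩
    · rintro ⟨d, h2, rfl⟩
      exact ⟨d.2, (h d).1 h2⟩
  rw [h1, Set.ncard_image_of_injective _ Subtype.val_injective]
  exact Nat.card_coe_set_eq {d : D | P d}

/-- Rank at most `r` and `|I| < p ^ k` or `2 k ≥ r (r + 1)` give `HIY p (k (r + 1))`. -/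
theorem FinR_rk (hRKP : Pool.Agent.BR.RKP_stmt) {p r k : ℕ} (hp : p.Prime) (hr : 1 ≤ r) (hk : 1 ≤ k)
    {G : Type} [Group G] [Finite G] {D T : Subgroup G} (hG : GDT p D T)
    (hrk : {u | u ∈ D ∧ u ^ p = 1}.ncard ≤ p ^ r) (hI : (cz D).relIndex T < p ^ k ∨ r * (r + 1) ≤ 2 * k) :
    Pool.Agent.BR.HIY p (k * (r + 1)) G D T := by
  obtain ⟨-, -, pg, com, -, nor, cop⟩ := hG
  let _ := ALT_inst D com
  have hker : Nat.card (powMonoidHom p : D →* D).ker ≤ p ^ r := by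
    refine le_trans (le_of_eq ?_) hrk
    refine FinR_card D (fun d => d ∈ (powMonoidHom p : D →* D).ker) (fun u => u ^ p = 1) (fun d => ?_)
    rw [MonoidHom.mem_ker]
    show d ^ p = 1 ↔ (d : G) ^ p = 1
    rw [Subtype.ext_iff]
    rfl
  obtain ⟨h1, h2⟩ := hRKP p r hp hr D pg hker
  have hcop : ¬ p ∣ Nat.card (ALT_rho D T nor).range := by
    rw [ALT_card]
    exact cop
  have h3 := h1 _ hcop
  rw [ALT_card] at h3
  have h4 := h2 k
  have h3' : (cz D).relIndex T < p ^ k := by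
    rcases hI with hI | hI
    · exact hI
    · refine lt_of_lt_of_le h3 (Nat.pow_le_pow_right hp.pos ?_)
      omega
  refine ⟨k - 1, ((powMonoidHom (p ^ k) : D →* D).range).map D.subtype, fun y => ?_, ?_, ?_⟩
  · rw [Nat.sub_add_cancel hk, Subgroup.mem_map]
    constructor
    · rintro ⟨x, ⟨d, hd⟩, hx⟩
      refine ⟨d, d.2, ?_⟩
      rw [← hx, ← hd]
      rfl
    · rintro ⟨d, hd, hy⟩
      exact ⟨(⟨d, hd⟩ : D) ^ p ^ k, ⟨⟨d, hd⟩, rfl⟩, hy⟩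
  · rw [Nat.sub_add_cancel hk]
    exact h3'
  · have h5 : (((powMonoidHom (p ^ k) : D →* D).range).map D.subtype).subgroupOf D = (powMonoidHom (p ^ k) : D →* D).range := by
      ext x
      rw [Subgroup.mem_subgroupOf, Subgroup.mem_map]
      constructor
      · rintro ⟨x', hx', he'⟩
        have : x' = x := Subtype.ext he'
        rw [← this]
        exact hx'
      · intro hx
        exact ⟨x, hx, rfl⟩
    have h6 : (((powMonoidHom (p ^ k) : D →* D).range).map D.subtype).relIndex D ≤ p ^ (r * k) := by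
      refine le_trans (le_of_eq ?_) h4
      show ((((powMonoidHom (p ^ k) : D →* D).range).map D.subtype).subgroupOf D).index = _
      rw [h5]
    calc _ ≤ p ^ k * p ^ (r * k) := Nat.mul_le_mul h3'.le h6
      _ = p ^ (k * (r + 1)) := by
        rw [← pow_add]
        congr 1
        ring

/-- `PowerIndex` gives `HIY`. -/
theorem FinR_pi {p k c i : ℕ} (hp : p.Prime) {G : Type} [Group G] [Finite G] {D T : Subgroup G} (hG : GDT p D T)
    (h : PowerIndex p D i k c) (hi : i = (cz D).relIndex T) : Pool.Agent.BR.HIY p c G D T := by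
  subst hi
  obtain ⟨-, -, pg, com, -, nor, cop⟩ := hG
  obtain ⟨h1, h2⟩ := h
  let _ := ALT_inst D com
  have hi0 : (cz D).relIndex T ≠ 0 := Subgroup.index_ne_zero_of_finite
  have hk : k - 1 + 1 = k := by
    rcases Nat.eq_zero_or_pos k with h0 | h0
    · subst h0
      rw [pow_zero] at h1
      omega
    · omega
  obtain ⟨K, hK⟩ : ∃ K : Subgroup G, ∀ y, y ∈ K ↔ ∃ d ∈ D, d ^ p ^ k = y := by
    refine ⟨((powMonoidHom (p ^ k) : D →* D).range).map D.subtype, fun y => ?_⟩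
    rw [Subgroup.mem_map]
    constructor
    · rintro ⟨x, ⟨d, hd⟩, hx⟩
      refine ⟨d, d.2, ?_⟩
      rw [← hx, ← hd]
      rfl
    · rintro ⟨d, hd, hy⟩
      exact ⟨(⟨d, hd⟩ : D) ^ p ^ k, ⟨⟨d, hd⟩, rfl⟩, hy⟩
  have hKD : K ≤ D := by
    intro y hy
    obtain ⟨d, hd, he⟩ := (hK y).1 hy
    rw [← he]
    exact D.pow_mem hd _
  have h3 : {u : G | ∃ d ∈ D, d ^ p ^ k = u}.ncard = Nat.card K := by
    have h4 : {u : G | ∃ d ∈ D, d ^ p ^ k = u} = (K : Set G) := by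
      ext u
      exact (hK u).symm
    rw [h4]
    rfl
  refine ⟨k - 1, K, fun y => by rw [hk]; exact hK y, by rw [hk]; exact h1, ?_⟩
  rw [h3] at h2
  have h5 : Nat.card D = Nat.card K * K.relIndex D := by
    have h6 := Subgroup.relIndex_mul_relIndex (⊥ : Subgroup G) K D bot_le hKD
    rw [Subgroup.relIndex_bot_left, Subgroup.relIndex_bot_left] at h6
    exact h6.symm
  rw [h5] at h2
  have hK0 : 0 < Nat.card K := Nat.card_pos
  have h7 : Nat.card K * ((cz D).relIndex T * K.relIndex D) ≤ Nat.card K * p ^ c :=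
    calc Nat.card K * ((cz D).relIndex T * K.relIndex D) = (cz D).relIndex T * (Nat.card K * K.relIndex D) := by ring
      _ ≤ p ^ c * Nat.card K := h2
      _ = Nat.card K * p ^ c := by ring
  exact Nat.le_of_mul_le_mul_left h7 hK0

/-- `r (r + 1)` is even. -/
theorem FinR_half (r : ℕ) : ∃ k : ℕ, 2 * k = r * (r + 1) := by
  obtain ⟨k, hk⟩ := (Nat.even_mul_succ_self r)
  exact ⟨k, by rw [hk]; ring⟩

theorem FinR_half2 {r k c : ℕ} (hk : 2 * k = r * (r + 1)) (h : r * (r + 1) ^ 2 ≤ 2 * c) : k * (r + 1) ≤ c := by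
  have h1 : 2 * (k * (r + 1)) = r * (r + 1) ^ 2 := by
    rw [← mul_assoc, hk]
    ring
  omega

theorem FinR_half3 {r k : ℕ} (hk : 2 * k = r * (r + 1)) (hr : 1 ≤ r) : 1 ≤ k := by
  have h1 : 0 < r * (r + 1) := Nat.mul_pos hr (Nat.succ_pos r)
  omega

theorem FinR_exp {p : ℕ} {G : Type} [Group G] {D : Subgroup G} {c c' v : ℕ} (h : Exponent p D (c + v)) (hcc : c' ≤ c) :
    ∃ z ∈ D, z ^ p ^ (c' + v - 1) ≠ 1 := by
  obtain ⟨h1, z, hz, h2⟩ := h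
  refine ⟨z, hz, fun h3 => h2 ?_⟩
  have h4 : p ^ (c' + v - 1) ∣ p ^ (c + v - 1) := pow_dvd_pow p (by omega)
  obtain ⟨m, hm⟩ := h4
  rw [hm, pow_mul, h3, one_pow]

/-- The alternating sums, `O_p(G) = 1`, `E_B / E[B]` cyclic of order prime to `p`. -/
theorem FinR_dade (hLOA : LOA_stmt) (hA : R2A_stmt) (hB : R2B_stmt) (hC : R2Ca_stmt) (hD : R2Da_stmt) (hRK : RKR_stmt) (hREX : REX_stmt) (hRKZ : RKZ_stmt)
    (hHHE : HHE_stmt) (hBDE : BDE_stmt) (hHZH : HZH_stmt) (hHEZ : HEZ_stmt) (hBDZ : BDZ_stmt)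
    (hDC5 : Pool.Agent.L5.DC5_stmt) (hEJ5 : Pool.Agent.L5.EJ5_stmt)
    (hBD4 : Pool.Agent.BR.BD4_stmt) (hRKP : Pool.Agent.BR.RKP_stmt)
    (p : ℕ) (hpr : p.Prime) (hp2 : p ≠ 2) (M : Ideal (integralClosure ℤ ℂ)) (hM : M.IsMaximal)
    (hp : (p : integralClosure ℤ ℂ) ∈ M) (G : Type) [Group G] [Finite G]
    (χ : G → ℂ) (hχ : χ ∈ Irr G) (D : Subgroup G) (θ : G → ℂ)
    (h : AbelianDefect p M χ D θ) (hG : IsOp p (⊤ : Subgroup G) ⊥)
    (E A : Type) [Group E] [Group A] [Finite E] (X : Extension G E A) (s : A) (n v : ℕ) (hn : 0 < n)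
    (hsn : s ^ n ∈ Pool.Agent.BQ.AI X M χ) (hpn : ¬ p ∣ n) (hJ : ¬ p ^ (v + 1) ∣ Pool.Agent.MAPW.J2 n)
    (hs : ∀ a ∈ Pool.Agent.BQ.AB X M χ, ∃ k : ℤ, s ^ k * a ∈ Pool.Agent.BQ.AI X M χ)
    (hL : LargeAbelian p M D θ v) (U : Subgroup A) :
    ∑ᶠ d : ℤ, altSum X p M χ d U = 0 ∧
      (FewNonRegular p M D θ ∨ HeightZero p M χ D → ∀ d : ℤ, altSum X p M χ d U = 0) := by
  have hS : Setup p M := ⟨hpr, hM, hp⟩
  obtain ⟨⟨x, hR⟩, -, -, hQ⟩ := FinL_std hpr hM hp hχ h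
  have hGD := FinL_gdt hLOA hS hp2 hR
  have key : ∀ hH : LargeExponent p M D θ v ∨ LargeCyclic p D v, ∑ᶠ d : ℤ, altSum X p M χ d U = 0 ∧
      (FewNonRegular p M D θ ∨ HeightZero p M χ D → ∀ d : ℤ, altSum X p M χ d U = 0) := fun hH =>
    FinZ_dade hLOA hA hB hC hD hRK hREX hRKZ hHHE hBDE hHZH hHEZ hBDZ hDC5 hEJ5 p hpr hp2 M hM hp G χ hχ D θ h hG E A X
      s n v hn hsn hpn hJ hs hH U
  rcases hL with h1 | h1 | ⟨c, k, i, hc, h2, h3, h4⟩ | ⟨r, c, hr, h1, h2, h3⟩ | h1 | h1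
  · exact key (Or.inl (Or.inl h1))
  · exact key (Or.inl (Or.inr (Or.inl h1)))
  · rw [hQ] at h3
    exact FinG_dade hLOA hA hC hD hRKZ hHHE hHZH hDC5 hEJ5 p hpr hp2 M hM hp (Pool.Agent.BR.HIY p c)
      (Pool.Agent.BR.HIY_her p _) c hc
      (hBD4 p M hS hp2 _) G χ hχ D θ h hG E A X s n v hn hsn hpn hJ hs h2.2 (FinR_pi hpr hGD h4 h3) U
  · obtain ⟨k, hk⟩ := FinR_half r
    have hk1 := FinR_half3 hk hr
    have hc : 1 ≤ k * (r + 1) := Nat.mul_pos hk1 (Nat.succ_pos r)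
    exact FinG_dade hLOA hA hC hD hRKZ hHHE hHZH hDC5 hEJ5 p hpr hp2 M hM hp (Pool.Agent.BR.HIY p (k * (r + 1)))
      (Pool.Agent.BR.HIY_her p _) (k * (r + 1)) hc
      (hBD4 p M hS hp2 _) G χ hχ D θ h hG E A X s n v hn hsn hpn hJ hs (FinR_exp h3 (FinR_half2 hk h2))
      (FinR_rk hRKP hpr hr hk1 hGD h1 (Or.inr hk.ge)) U
  · exact key (Or.inl (Or.inr (Or.inr (Or.inl h1))))
  · exact key (Or.inr h1)

/-- `k(B) = k(B_N)` and `l(B) = l(B_N)`, every `G`. -/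
theorem FinR_kl (hLOA : LOA_stmt) (hA : R2A_stmt) (hB : R2B_stmt) (hD : R2Da_stmt) (hRK : RKR_stmt) (hRKC : RKC_stmt)
    (hP2L : P2L_stmt) (hHHE : HHE_stmt) (hAMG : AMG_stmt) (hXL : XL_stmt) (hNIL : NIL_stmt) (hDVZ : DVZ_stmt) (hSHA : SHA_stmt)
    (hBD4 : Pool.Agent.BR.BD4_stmt) (hRKP : Pool.Agent.BR.RKP_stmt)
    (p : ℕ) (hpr : p.Prime) (hp2 : p ≠ 2) (M : Ideal (integralClosure ℤ ℂ)) (hM : M.IsMaximal)
    (hp : (p : integralClosure ℤ ℂ) ∈ M) (G : Type) [Group G] [Finite G]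
    (χ : G → ℂ) (hχ : χ ∈ Irr G) (D : Subgroup G) (θ : G → ℂ)
    (h : AbelianDefect p M χ D θ) (hL : LargeAbelianN p M D θ) :
    Nat.card {ψ : G → ℂ // ψ ∈ Irr G ∧ Induces M ψ χ} =
      Nat.card {ψ : G → ℂ // ψ ∈ IrrOn (Subgroup.normalizer (D : Set G)) ∧ Induces M ψ χ} ∧
    Pool.Agent.FIV.brauerNumber p M χ ⊤ =
      Pool.Agent.FIV.brauerNumber p M χ (Subgroup.normalizer (D : Set G)) := by
  have hS : Setup p M := ⟨hpr, hM, hp⟩
  obtain ⟨⟨x, hR⟩, -, -, hQ⟩ := FinL_std hpr hM hp hχ h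
  have hGD := FinL_gdt hLOA hS hp2 hR
  have key : ∀ hH : LargeExponentN p M D θ, Nat.card {ψ : G → ℂ // ψ ∈ Irr G ∧ Induces M ψ χ} =
      Nat.card {ψ : G → ℂ // ψ ∈ IrrOn (Subgroup.normalizer (D : Set G)) ∧ Induces M ψ χ} ∧
    Pool.Agent.FIV.brauerNumber p M χ ⊤ =
      Pool.Agent.FIV.brauerNumber p M χ (Subgroup.normalizer (D : Set G)) := fun hH =>
    FinL_kl hLOA hA hB hD hRK hRKC hP2L hHHE hAMG hXL p hpr hp2 M hM hp G χ hχ D θ h hH
  rcases hL with h1 | h1 | ⟨r, a, c, k, i, h1, h2, hr, hc, h3, h4 | h4⟩ | h1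
  · exact key (Or.inl h1)
  · exact key (Or.inr (Or.inl h1))
  · rw [hQ] at h2
    exact FinG_kl hNIL hDVZ hHHE hAMG hXL p hpr hp2 M hM hp (Pool.Agent.BR.HIY p c) (Pool.Agent.BR.HIY_her p _)
      c hc (hBD4 p M hS hp2 _) G χ hχ D θ h (FinR_pi hpr hGD h4 h2)
      (hRKC p M G D θ hR.th hGD r a c hc h3 h1)
  · obtain ⟨k, hk⟩ := FinR_half r
    have hk1 := FinR_half3 hk hr
    have hc' : 1 ≤ k * (r + 1) := Nat.mul_pos hk1 (Nat.succ_pos r)
    have hcc := FinR_half2 hk h4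
    exact FinG_kl hNIL hDVZ hHHE hAMG hXL p hpr hp2 M hM hp (Pool.Agent.BR.HIY p (k * (r + 1))) (Pool.Agent.BR.HIY_her p _)
      (k * (r + 1)) hc' (hBD4 p M hS hp2 _) G χ hχ D θ h
      (FinR_rk hRKP hpr hr hk1 hGD (hSHA p G D hpr r a (fun l => hc.trans (h3 l)) h1).le (Or.inr hk.ge))
      (hRKC p M G D θ hR.th hGD r a (k * (r + 1)) hc' (fun l => hcc.trans (h3 l)) h1)
  · exact key (Or.inr (Or.inr (Or.inl h1)))

end Pool.Agent.LE
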