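import Mathlib
import Pool.Agent.helper12.LE.AllL
import Pool.Agent.helper12.BR.FinR
import Pool.Agent.helper75.LE.SHA
import Pool.Agent.helper70.LZ.AllZ
import Pool.Agent.helper58.BR.AllN
import Pool.Agent.helper70.BR.AllBP
import Pool.Agent.helper12.BR.AllHc

/-!
# MP_baa4d7_al, project LE with BOUND-R: all hypotheses of the final theorems of version 3 (`FinR`) closed
-/

set_option autoImplicit false

namespace Pool.Agent.LE.AllV3

open Pool.Agent.helper58.DC Pool.Agent.DI Pool.Agent.GR Pool.Agent.OB Pool.Agent.DR Pool.Agent.FI Pool.Agent.FI3 Pool.Agent.FI4 Pool.Agent.FI4I Pool.Agent.LE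

theorem rNIL : NIL_stmt := Pool.Agent.LE.AllN.nNIL
theorem rDVZ : DVZ_stmt := Glue_DVZ Pool.Agent.L5.AllL5.mDV5
theorem rSHA : SHA_stmt := SHA
theorem rRKP : Pool.Agent.BR.RKP_stmt := Pool.Agent.BR.AllN.nRKP
theorem rBD4 : Pool.Agent.BR.BD4_stmt := fun p M hS hp2 c =>
  Pool.Agent.BR.BD4 (Pool.Agent.BR.AllN.nBPQ Pool.Agent.BR.AllBP.bBPM) Pool.Agent.BR.AllHc.hPS0 Pool.Agent.BR.AllHc.hPIV
    Pool.Agent.BR.AllN.nCIN Pool.Agent.BR.AllN.nCTP Pool.Agent.LE.AllB.lPER Pool.Agent.BR.AllHc.hHPT Pool.Agent.BR.AllN.nPPL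
    Pool.Agent.BR.AllHc.hPRL Pool.Agent.FI4.AllP4.pLOA Pool.Agent.LE.AllB.lGM2 Pool.Agent.LE.AllB.lCNL Pool.Agent.FI4.AllK.kLLN
    Pool.Agent.FI.AllA.dTPR p M hS hp2 c

end Pool.Agent.LE.AllV3
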