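import Mathlib
import Pool.Agent.helper12.BR.FinR
import Pool.Agent.helper37.ND.XD

/-!
# Project BR (MP_baa4d7_al): conditions on the defect group only; all extensions with `E_B / E[B]` cyclic of order prime to `p`
-/

set_option autoImplicit false

namespace Pool.Agent.FIL

open Pool.Agent.helper58.DC Pool.Agent.FIW Pool.Agent.FIV

/-- The conditions (1), (2), (3), (4) of `LargeAbelian` in which nothing is assumed on the inertial quotient: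
* (1) `D ≅ C_(p ^ a) × C_(p ^ b)`, `a > b ≥ 1`, or `D ≅ C_(p ^ e) × C_(p ^ e)`, `e ≥ 3`;
* (2) `D` has rank at most `r`, `r ≥ 1`, and its exponent is at least `p ^ c`, where `2 c ≥ r (r + 1) ^ 2`;
* (3) `D` has rank `r ≥ 1`, all invariants of `D` are at least `p ^ j`, the exponent of `D` is at least `p ^ (j (r - 1) + 1)`,
  `r ≤ j` and `r (r + 1) < 4 j`;
* (4) `p |D| ^ 2` is at most the third power of the exponent of `D`. -/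
def LargeGroup {G : Type} [Group G] (p : ℕ) (D : Subgroup G) : Prop :=
  (∃ a b : ℕ, 1 ≤ b ∧ b < a ∧ Invariants p D ![a, b]) ∨
  (∃ e : ℕ, 3 ≤ e ∧ Invariants p D ![e, e]) ∨
  (∃ r c : ℕ, 1 ≤ r ∧ RankLe p D r ∧ r * (r + 1) ^ 2 ≤ 2 * c ∧ Exponent p D c) ∨
  (∃ (r : ℕ) (a : Fin r → ℕ) (j : ℕ), Invariants p D a ∧ 1 ≤ r ∧ r ≤ j ∧ r * (r + 1) < 4 * j ∧ (∀ k, j ≤ a k) ∧
    ∃ k, j * (r - 1) + 1 ≤ a k) ∨
  ∃ c : ℕ, 1 ≤ c ∧ Exponent p D c ∧ p * Nat.card D ^ 2 ≤ p ^ (3 * c)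

end Pool.Agent.FIL

namespace Pool.Agent.LE

open Pool.Agent.helper58.DC Pool.Agent.DI Pool.Agent.GR Pool.Agent.OB Pool.Agent.DR Pool.Agent.FI Pool.Agent.FI3 Pool.Agent.FI4 Pool.Agent.FIL

/-- The property for `Pool.Agent.XD.main`. -/
def LGP (p : ℕ) : (G : Type) → [Group G] → Subgroup G → Prop := fun _ _ D => (∀ c ∈ D, ∀ d ∈ D, c * d = d * c) ∧ LargeGroup p D

theorem LGP_her (p : ℕ) : Pool.Agent.XD.Her (LGP p) := by
  intro G E _ _ i hi D hD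
  obtain ⟨hcom, hD⟩ := hD
  have e : D ≃* D.map i := D.equivMapOfInjective i hi
  have hinv : ∀ (r : ℕ) (a : Fin r → ℕ), Invariants p D a → Invariants p (D.map i) a := by
    rintro r a ⟨f⟩
    exact ⟨e.symm.trans f⟩
  have hexp : ∀ c : ℕ, Exponent p D c → Exponent p (D.map i) c := by
    rintro c ⟨h1, z, hz, h2⟩
    refine ⟨h1, i z, ⟨z, hz, rfl⟩, fun h3 => h2 (hi ?_)⟩
    rw [map_pow, h3, map_one]
  have hcard : Nat.card (D.map i) = Nat.card D := (Nat.card_congr e.toEquiv).symm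
  have hrank : ∀ r : ℕ, RankLe p D r → RankLe p (D.map i) r := by
    intro r h
    have h1 : {u : E | u ∈ D.map i ∧ u ^ p = 1} = i '' {u : G | u ∈ D ∧ u ^ p = 1} := by
      ext u
      constructor
      · rintro ⟨⟨v, hv, rfl⟩, h2⟩
        exact ⟨v, ⟨hv, hi (by rw [map_pow, h2, map_one])⟩, rfl⟩
      · rintro ⟨v, ⟨hv, h2⟩, rfl⟩
        exact ⟨⟨v, hv, rfl⟩, by rw [← map_pow, h2, map_one]⟩
    unfold RankLe
    rw [h1, Set.ncard_image_of_injective _ hi]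
    exact h
  refine ⟨?_, ?_⟩
  · rintro _ ⟨c, hc, rfl⟩ _ ⟨d, hd, rfl⟩
    rw [← map_mul, hcom c hc d hd, map_mul]
  · rcases hD with ⟨a, b, h1, h2, h3⟩ | ⟨a, h1, h2⟩ | ⟨r, c, h1, h2, h3, h4⟩ | ⟨r, a, j, h1, h2, h3, h4, h5, h6⟩ | ⟨c, h1, h2, h3⟩
    · exact Or.inl ⟨a, b, h1, h2, hinv _ _ h3⟩
    · exact Or.inr (Or.inl ⟨a, h1, hinv _ _ h2⟩)
    · exact Or.inr (Or.inr (Or.inl ⟨r, c, h1, hrank r h2, h3, hexp c h4⟩))
    · exact Or.inr (Or.inr (Or.inr (Or.inl ⟨r, a, j, hinv _ _ h1, h2, h3, h4, h5, h6⟩)))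
    · exact Or.inr (Or.inr (Or.inr (Or.inr ⟨c, h1, hexp c h2, by rw [hcard]; exact h3⟩)))

/-- `LargeGroup` implies `LargeAbelian`, `v = 0`. -/
theorem FinD_abel {p : ℕ} (hpr : p.Prime) {M : Ideal (integralClosure ℤ ℂ)} (hM : M.IsMaximal)
    (hp : (p : integralClosure ℤ ℂ) ∈ M) {G : Type} [Group G] [Finite G]
    {χ : G → ℂ} (hχ : χ ∈ Irr G) {D : Subgroup G} {θ : G → ℂ}
    (h : AbelianDefect p M χ D θ) (hL : LargeGroup p D) : LargeAbelian p M D θ 0 := by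
  obtain ⟨-, -, -, hQ⟩ := FinL_std hpr hM hp hχ h
  rcases hL with ⟨a, b, h1, h2, h3⟩ | ⟨e, h1, h2⟩ | ⟨r, c, h1, h2, h3, h4⟩ | ⟨r, a, j, h1, h2, h3, h4, h5, h6⟩ | ⟨c, h1, h2, h3⟩
  · exact Or.inl ⟨a, b, h1, h2, by omega, h3⟩
  · exact Or.inr (Or.inl ⟨e, h2, Or.inl (by omega)⟩)
  · exact Or.inr (Or.inr (Or.inr (Or.inl ⟨r, c, h1, h2, h3, h4⟩)))
  · exact Or.inr (Or.inr (Or.inr (Or.inr (Or.inl ⟨r, a, j, iI M D θ, h1, (hQ _).2 rfl, h2, h2.trans h3, h5, h6, Or.inr ⟨h3, h4⟩⟩))))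
  · exact Or.inr (Or.inr (Or.inr (Or.inr (Or.inr ⟨c, h1, h2, h3⟩))))

/-- The alternating sums, `O_p(G) = 1`, `LargeGroup`, `E_B / E[B]` cyclic of order prime to `p`. -/
theorem FinD_dade (hLOA : LOA_stmt) (hA : R2A_stmt) (hB : R2B_stmt) (hC : R2Ca_stmt) (hD : R2Da_stmt) (hRK : RKR_stmt) (hREX : REX_stmt) (hRKZ : RKZ_stmt)
    (hHHE : HHE_stmt) (hBDE : BDE_stmt) (hHZH : HZH_stmt) (hHEZ : HEZ_stmt) (hBDZ : BDZ_stmt)
    (hDC5 : Pool.Agent.L5.DC5_stmt) (hEJ5 : Pool.Agent.L5.EJ5_stmt) (hDH5 : Pool.Agent.L5.DH5_stmt)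
    (hBD4 : Pool.Agent.BR.BD4_stmt) (hRKP : Pool.Agent.BR.RKP_stmt)
    (p : ℕ) (hpr : p.Prime) (hp2 : p ≠ 2) (M : Ideal (integralClosure ℤ ℂ)) (hM : M.IsMaximal)
    (hp : (p : integralClosure ℤ ℂ) ∈ M) (G : Type) [Group G] [Finite G]
    (χ : G → ℂ) (hχ : χ ∈ Irr G) (D : Subgroup G) (θ : G → ℂ)
    (h : AbelianDefect p M χ D θ) (hG : IsOp p (⊤ : Subgroup G) ⊥)
    (E A : Type) [Group E] [Group A] [Finite E] (X : Extension G E A) (s : A) (n : ℕ)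
    (hsn : s ^ n ∈ Pool.Agent.BQ.AI X M χ) (hpn : ¬ p ∣ n)
    (hs : ∀ a ∈ Pool.Agent.BQ.AB X M χ, ∃ k : ℤ, s ^ k * a ∈ Pool.Agent.BQ.AI X M χ)
    (hL : LargeGroup p D) (U : Subgroup A) :
    ∑ᶠ d : ℤ, altSum X p M χ d U = 0 ∧
      (FewNonRegular p M D θ ∨ HeightZero p M χ D → ∀ d : ℤ, altSum X p M χ d U = 0) := by
  have hS : Setup p M := ⟨hpr, hM, hp⟩
  have : Fact p.Prime := ⟨hpr⟩
  obtain ⟨⟨x, hR⟩, -⟩ := FinL_std hpr hM hp hχ h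
  have h0 : ∑ᶠ d : ℤ, altSum X p M χ d U = 0 := by
    refine Pool.Agent.XD.main hS Pool.Agent.XD.Fun_sum (LGP_her p) ?_ G hG χ hχ D h.defect ⟨h.comm, hL⟩ E A X s n hsn hpn hs U
    intro G' _ _ hO' χ' hχ' D' hD' hL'
    obtain ⟨x', hx'⟩ := Pool.Agent.XD.defAt_of hS hχ' hD'
    obtain ⟨θ', hθ', hind⟩ := Pool.Agent.OB.All.uDG2 p M hS G' χ' hχ' D' x' hx'
    have h' : AbelianDefect p M χ' D' θ' := ⟨hD', hL'.1, hθ', hind⟩
    refine (FinR_dade hLOA hA hB hC hD hRK hREX hRKZ hHHE hBDE hHZH hHEZ hBDZ hDC5 hEJ5 hBD4 hRKP p hpr hp2 M hM hp G' χ' hχ'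
      D' θ' h' hO' G' Unit (trivE G') 1 1 0 Nat.one_pos (by rw [one_pow]; exact Subgroup.one_mem _)
      (fun h1 => hpr.one_lt.ne' (Nat.dvd_one.1 h1)) ?_ ?_ (FinD_abel hpr hM hp hχ' h' hL'.2) ⊤).1
    · have h1 : Pool.Agent.MAPW.J2 1 = 1 := by
        unfold Pool.Agent.MAPW.J2
        simp
      rw [h1, zero_add, pow_one]
      exact fun h2 => hpr.one_lt.ne' (Nat.dvd_one.1 h2)
    · intro a _
      refine ⟨0, ?_⟩
      have h1 : (1 : Unit) ^ (0 : ℤ) * a = 1 := rfl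
      rw [h1]
      exact Subgroup.one_mem _
  refine ⟨h0, fun h1 d => ?_⟩
  rcases h1 with h1 | h1
  · obtain ⟨a, ha⟩ := IsPGroup.iff_card.1 hR.dfa.pgrp
    have h2 : ∀ d : ℤ, d ≠ a → altSum X p M χ d U = 0 := fun d hd =>
      hDH5 p M hS (HZE p) (hHHE p hpr 0 0).2.2.1 (hHZH p M hS hp2) G E A X D x θ χ hR
        (FinL_zero hLOA hA hC hD hRKZ hpr hp2 hM hp hχ h h1) a ha d hd U
    by_cases hd : d = a
    · subst hd
      rw [← h0]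
      exact (finsum_eq_single (fun d : ℤ => altSum X p M χ d U) (a : ℤ) h2).symm
    · exact h2 d hd
  · exact FinL_km p hpr M G E A X χ D hR.dfa.pgrp h1 U h0 d

end Pool.Agent.LE
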