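import Mathlib
import Pool.Agent.helper12.BR.AllR
import Pool.Agent.helper12.BR.FinD

/-!
# MP_baa4d7_al, project LE: the hypotheses of `FinD_dade` closed
-/

set_option autoImplicit false

namespace Pool.Agent.LE.AllV3

open Pool.Agent.helper58.DC Pool.Agent.DI Pool.Agent.GR Pool.Agent.OB Pool.Agent.DR Pool.Agent.FI Pool.Agent.FI3 Pool.Agent.FI4 Pool.Agent.FI4I Pool.Agent.LE

theorem rDH5 : Pool.Agent.L5.DH5_stmt := Pool.Agent.L5.DH5 Pool.Agent.DR.AllDI.iA13 Pool.Agent.LE.AllG.gHNG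

end Pool.Agent.LE.AllV3
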