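import Pool.Agent.helper12.BR.PRL
import Pool.Agent.helper95.LE.ALLT
import Pool.Agent.helper51.BR.HWT

/-!
# Project BR (MP_baa4d7_al): `n_l` is divisible by the order of the stabiliser of `l` in the inertial quotient
-/

set_option autoImplicit false

namespace Pool.Agent.BR

open Pool.Agent.helper58.DC Pool.Agent.DI Pool.Agent.GR Pool.Agent.OB Pool.Agent.DR Pool.Agent.FI Pool.Agent.FI3 Pool.Agent.FI4 Pool.Agent.LE

section

variable {G : Type} [Group G]

/-- The stabiliser of `l` in `T`. -/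
def Sl (D T : Subgroup G) (nor : T ≤ nz D) (l : D →* ℂˣ) : Subgroup T where
  carrier := {t | ∀ u : D, l (ALT_rho D T nor t u) = l u}
  one_mem' := by
    intro u
    rw [map_one]
    rfl
  mul_mem' := by
    intro a b ha hb u
    rw [map_mul, MulAut.mul_apply, ha, hb]
  inv_mem' := by
    intro a ha u
    have h := ha (ALT_rho D T nor a⁻¹ u)
    rw [← h, ← MulAut.mul_apply, ← map_mul, mul_inv_cancel, map_one]
    rfl

theorem mem_Sl {D T : Subgroup G} {nor : T ≤ nz D} {l : D →* ℂˣ} {t : T} :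
    t ∈ Sl D T nor l ↔ ∀ u : D, l (ALT_rho D T nor t u) = l u := Iff.rfl

theorem DVL_cz {D T : Subgroup G} (nor : T ≤ nz D) (l : D →* ℂˣ) : (cz D).subgroupOf T ≤ Sl D T nor l := by
  intro t ht u
  have h1 : ALT_rho D T nor t = 1 := (ALT_ker D T nor t).2 (Subgroup.mem_subgroupOf.1 ht)
  rw [h1]
  rfl

/-- The twisted characters `l ∘ t`: there are at least `|T| / |Sl|` of them. -/
theorem DVL_orb [Finite G] {D T : Subgroup G} (nor : T ≤ nz D) (l : D →* ℂˣ) (F : Finset (D →* ℂˣ))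
    (hF : ∀ t : T, l.comp (ALT_rho D T nor t).toMonoidHom ∈ F) :
    ∃ O : Finset (D →* ℂˣ), O ⊆ F ∧ (∀ l' ∈ O, ∃ t : T, l' = l.comp (ALT_rho D T nor t).toMonoidHom) ∧
      Nat.card T ≤ Nat.card (Sl D T nor l) * O.card := by
  classical
  have hT : Fintype T := Fintype.ofFinite T
  refine ⟨Finset.univ.image fun t : T => l.comp (ALT_rho D T nor t).toMonoidHom, ?_, ?_, ?_⟩
  · intro l' hl'
    obtain ⟨t, -, rfl⟩ := Finset.mem_image.1 hl'
    exact hF t
  · intro l' hl'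
    obtain ⟨t, -, rfl⟩ := Finset.mem_image.1 hl'
    exact ⟨t, rfl⟩
  · rw [Nat.card_eq_fintype_card]
    refine Finset.card_le_mul_card_image _ _ ?_
    intro l' hl'
    obtain ⟨t₀, -, rfl⟩ := Finset.mem_image.1 hl'
    have hS : Fintype (Sl D T nor l) := Fintype.ofFinite _
    rw [Nat.card_eq_fintype_card]
    have h1 : ∀ t ∈ Finset.univ.filter (fun t : T => l.comp (ALT_rho D T nor t).toMonoidHom = l.comp (ALT_rho D T nor t₀).toMonoidHom),
        t * t₀⁻¹ ∈ Sl D T nor l := by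
      intro t ht u
      have h2 := (Finset.mem_filter.1 ht).2
      have h3 := DFunLike.congr_fun h2 (ALT_rho D T nor t₀⁻¹ u)
      have h4 : l (ALT_rho D T nor t (ALT_rho D T nor t₀⁻¹ u)) = l (ALT_rho D T nor t₀ (ALT_rho D T nor t₀⁻¹ u)) := h3
      rw [← MulAut.mul_apply, ← map_mul, ← MulAut.mul_apply, ← map_mul, mul_inv_cancel, map_one] at h4
      exact h4
    refine Finset.card_le_card_of_injOn (s := Finset.univ.filter (fun t : T => l.comp (ALT_rho D T nor t).toMonoidHom = l.comp (ALT_rho D T nor t₀).toMonoidHom))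
      (t := (Finset.univ : Finset (Sl D T nor l)).map (Function.Embedding.subtype _)) (fun t => t * t₀⁻¹) ?_ ?_ |>.trans ?_
    · intro t ht
      rw [Finset.coe_map]
      exact ⟨⟨t * t₀⁻¹, h1 t ht⟩, Finset.mem_coe.2 (Finset.mem_univ _), rfl⟩
    · intro t _ t' _ h
      exact mul_right_cancel h
    · rw [Finset.card_map]
      exact le_of_eq Finset.card_univ

end

theorem DVL_aev {ζ : ℂ} (h : IsIntegral ℤ ζ) (P : Polynomial ℤ) : IsIntegral ℤ (Polynomial.aeval ζ P) := by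
  rw [Polynomial.aeval_eq_sum_range]
  refine IsIntegral.sum _ fun i _ => ?_
  exact (h.pow i).smul (P.coeff i)

/-- `n_l` does not change if `l` is replaced by `l ∘ t`. -/
theorem DVL_inv (hHPT : HPT_stmt) {p : ℕ} {M : Ideal (integralClosure ℤ ℂ)} (hS : Setup p M) {G : Type} [Group G] [Finite G]
    {D : Subgroup G} {x : G} {θ χ : G → ℂ} (lo : LoA p M D x θ χ) (nor : TT M D θ ≤ nz D)
    {ψ ψ₀ : G → ℂ} (hψ : ψ ∈ Bl M (⊤ : Subgroup G) θ) (hψ₀ : ψ₀ ∈ Bl M (⊤ : Subgroup G) θ) (l : D →* ℂˣ) (t : TT M D θ) :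
    nl p M D θ (l.comp (ALT_rho D (TT M D θ) nor t).toMonoidHom) ψ ψ₀ = nl p M D θ l ψ ψ₀ := by
  classical
  have : Fintype D := Fintype.ofFinite D
  unfold nl
  rw [finsum_eq_sum_of_fintype, finsum_eq_sum_of_fintype]
  rw [← Equiv.sum_comp (ALT_rho D (TT M D θ) nor t).toEquiv (fun u : D => ci M D θ u * (l u : ℂ) * PP p M θ ψ ψ₀ u)]
  refine Finset.sum_congr rfl fun u _ => ?_
  have h1 : ci M D θ (((ALT_rho D (TT M D θ) nor t).toEquiv u : D) : G) = ci M D θ u := by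
    unfold ci
    have h2 : (((ALT_rho D (TT M D θ) nor t).toEquiv u : D) : G) = (t : G) * u * (t : G)⁻¹ := rfl
    rw [h2, HWT_conj _ _ _ t.2]
  have h3 : PP p M θ ψ ψ₀ (((ALT_rho D (TT M D θ) nor t).toEquiv u : D) : G) = PP p M θ ψ ψ₀ u :=
    hHPT p M hS G D x θ χ lo u u.2 t t.2 ψ hψ.1 ψ₀ hψ₀.1
  rw [h1, h3]
  rfl

/-- **DVL**: `|Sl| ≤ |C_G(D)| |n_l|` if `n_l` is an integer different from `0`. -/
theorem DVL_le (hHPT : HPT_stmt) (hPPL : PPL_stmt) {p : ℕ} {M : Ideal (integralClosure ℤ ℂ)} (hS : Setup p M) {G : Type} [Group G] [Finite G]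
    {D : Subgroup G} {x : G} {θ χ : G → ℂ} (lo : LoA p M D x θ χ) (nor : TT M D θ ≤ nz D)
    {ψ ψ₀ : G → ℂ} (hψ : ψ ∈ Bl M (⊤ : Subgroup G) θ) (hψ₀ : ψ₀ ∈ Bl M (⊤ : Subgroup G) θ) (l : D →* ℂˣ) (a : ℤ)
    (ha : nl p M D θ l ψ ψ₀ = (a : ℂ)) (ha0 : a ≠ 0) :
    Nat.card (Sl D (TT M D θ) nor l) ≤ Nat.card (cz D) * a.natAbs := by
  classical
  have : Fintype D := Fintype.ofFinite D
  obtain ⟨T, hT⟩ : ∃ T, T = TT M D θ := ⟨_, rfl⟩
  let ρ := ALT_rho D (TT M D θ) nor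
  let S := Sl D (TT M D θ) nor l
  -- the action of `S` on `D`
  letI act : MulAction S D :=
    { smul := fun s u => ρ (s : TT M D θ) u
      one_smul := fun u => by
        show ρ ((1 : S) : TT M D θ) u = u
        rw [OneMemClass.coe_one, map_one]
        rfl
      mul_smul := fun s t u => by
        show ρ ((s * t : S) : TT M D θ) u = ρ (s : TT M D θ) (ρ (t : TT M D θ) u)
        rw [Subgroup.coe_mul, map_mul]
        rfl }
  have hsm : ∀ (s : S) (u : D), ((s • u : D) : G) = ((s : TT M D θ) : G) * u * ((s : TT M D θ) : G)⁻¹ := fun _ _ => rfl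
  have hint : ∀ u : D, IsIntegral ℤ ((Nat.card D : ℂ) * PP p M θ ψ ψ₀ u) := by
    intro u
    have hn : 0 < Nat.card D := Nat.card_pos
    have hun : (u : G) ^ Nat.card D = 1 := by
      rw [← Subgroup.coe_pow, pow_card_eq_one', Subgroup.coe_one]
    have hζ := Complex.isPrimitiveRoot_exp (Nat.card D) hn.ne'
    obtain ⟨P, hP⟩ := hPPL p M hS G D x θ χ lo u u.2 ψ hψ.1 ψ₀ hψ₀.1 (Nat.card D) hn hun _ hζ
    have h1 := hP 1 (fun h => hS.pr.one_lt.ne' (Nat.dvd_one.1 h))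
    rw [pow_one, pow_one] at h1
    rw [h1]
    have h2 : IsIntegral ℤ (Complex.exp (2 * Real.pi * Complex.I / (Nat.card D : ℕ))) := hζ.isIntegral hn
    exact DVL_aev h2 P
  have hF := PU2_orb S D (fun u => (Nat.card (Cz (TT M D θ) (u : G)) : ℂ) * (l u : ℂ) * ((Nat.card D : ℂ) * PP p M θ ψ ψ₀ u))
    (fun s u => by
      have h1 : l (s • u) = l u := s.2 u
      have h2 : PP p M θ ψ ψ₀ ((s • u : D) : G) = PP p M θ ψ ψ₀ u :=
        hHPT p M hS G D x θ χ lo u u.2 _ (s : TT M D θ).2 ψ hψ.1 ψ₀ hψ₀.1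
      show (Nat.card (Cz (TT M D θ) ((s • u : D) : G)) : ℂ) * (l (s • u) : ℂ) * ((Nat.card D : ℂ) * PP p M θ ψ ψ₀ ((s • u : D) : G)) = _
      rw [h1, h2, hsm, HWT_conj _ _ _ (s : TT M D θ).2])
    (fun u => by
      -- the stabiliser divides `Cz T u`
      have h1 : Nat.card (MulAction.stabilizer S u) ∣ Nat.card (Cz (TT M D θ) (u : G)) := by
        refine Subgroup.card_dvd_of_injective
          (f := { toFun := fun s => ⟨(((s : S) : TT M D θ) : G), ?_⟩, map_one' := ?_, map_mul' := ?_ }) ?_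
        · refine mem_Cz.2 ⟨((s : S) : TT M D θ).2, ?_⟩
          have h2 : ((((s : S) • u : D)) : G) = u := congrArg (fun d : D => (d : G)) s.2
          rw [hsm] at h2
          calc (u : G) * (((s : S) : TT M D θ) : G) = ((((s : S) : TT M D θ) : G) * u * (((s : S) : TT M D θ) : G)⁻¹) * (((s : S) : TT M D θ) : G) := by
                rw [h2]
            _ = _ := by group
        · rfl
        · intro s t
          rfl
        · intro s t h
          have h2 : (((s : S) : TT M D θ) : G) = (((t : S) : TT M D θ) : G) := congrArg (fun z : Cz (TT M D θ) (u : G) => (z : G)) h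
          exact Subtype.ext (Subtype.ext (Subtype.ext h2))
      obtain ⟨k, hk⟩ := h1
      have h2 : (Nat.card (MulAction.stabilizer S u) : ℂ) ≠ 0 := by
        exact_mod_cast (Nat.card_pos (α := MulAction.stabilizer S u)).ne'
      have h3 : (Nat.card (Cz (TT M D θ) (u : G)) : ℂ) * (l u : ℂ) * ((Nat.card D : ℂ) * PP p M θ ψ ψ₀ u) / Nat.card (MulAction.stabilizer S u) =
          (k : ℂ) * ((l u : ℂ) * ((Nat.card D : ℂ) * PP p M θ ψ ψ₀ u)) := by
        rw [hk]
        push_cast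
        field_simp
      rw [h3]
      have h4 : IsIntegral ℤ ((l u : ℂˣ) : ℂ) := by
        refine ⟨Polynomial.X ^ Nat.card D - 1, Polynomial.monic_X_pow_sub_C 1 Nat.card_pos.ne', ?_⟩
        have h5 : ((l u : ℂˣ) : ℂ) ^ Nat.card D = 1 := by
          rw [← Units.val_pow_eq_pow_val, ← map_pow, pow_card_eq_one', map_one, Units.val_one]
        rw [Polynomial.eval₂_sub, Polynomial.eval₂_pow, Polynomial.eval₂_X, Polynomial.eval₂_one, h5, sub_self]
      have h6 : IsIntegral ℤ ((k : ℕ) : ℂ) := by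
        have := isIntegral_algebraMap (R := ℤ) (A := ℂ) (x := (k : ℤ))
        simpa using this
      exact h6.mul (h4.mul (hint u)))
  -- the sum
  have hsum : ∑ u : D, (Nat.card (Cz (TT M D θ) (u : G)) : ℂ) * (l u : ℂ) * ((Nat.card D : ℂ) * PP p M θ ψ ψ₀ u) =
      (Nat.card (cz D) : ℂ) * ((Nat.card D : ℂ) * (a : ℂ)) := by
    rw [← ha]
    unfold nl
    rw [finsum_eq_sum_of_fintype, Finset.mul_sum, Finset.mul_sum]
    refine Finset.sum_congr rfl fun u _ => ?_
    unfold ci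
    have h1 : (Nat.card (cz D) : ℂ) ≠ 0 := by exact_mod_cast (Nat.card_pos (α := cz D)).ne'
    field_simp
  rw [hsum] at hF
  -- the index of `cz D` in `S`
  have hCT : cz D ≤ TT M D θ := cz_le_TT
  obtain ⟨c, hc⟩ : ∃ c, c = ((cz D).subgroupOf (TT M D θ)).relIndex S := ⟨_, rfl⟩
  have hcS : Nat.card S = Nat.card (cz D) * c := by
    have h1 := Subgroup.relIndex_mul_relIndex (⊥ : Subgroup (TT M D θ)) ((cz D).subgroupOf (TT M D θ)) S bot_le (DVL_cz nor l)
    rw [Subgroup.relIndex_bot_left, Subgroup.relIndex_bot_left, Nat.card_congr (Subgroup.subgroupOfEquivOfLe hCT).toEquiv, ← hc] at h1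
    exact h1.symm
  have hcI : c ∣ iI M D θ := by
    have h1 := Subgroup.relIndex_mul_index (DVL_cz nor l)
    exact ⟨S.index, by rw [hc]; exact h1.symm⟩
  have hpc : ¬ p ∣ c := fun h => lo.bet (h.trans hcI)
  have hz0 : (Nat.card (cz D) : ℂ) ≠ 0 := by exact_mod_cast (Nat.card_pos (α := cz D)).ne'
  have hc0 : 0 < c := by
    rcases Nat.eq_zero_or_pos c with h | h
    · rw [h, mul_zero] at hcS
      exact absurd hcS Nat.card_pos.ne'
    · exact h
  have hq : IsIntegral ℤ ((((Nat.card D : ℚ) * (a : ℚ)) / (c : ℚ) : ℚ) : ℂ) := by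
    have h1 : (Nat.card (cz D) : ℂ) * ((Nat.card D : ℂ) * (a : ℂ)) / Nat.card S = ((((Nat.card D : ℚ) * (a : ℚ)) / (c : ℚ) : ℚ) : ℂ) := by
      rw [hcS]
      have hc1 : (c : ℂ) ≠ 0 := by exact_mod_cast hc0.ne'
      push_cast
      field_simp
    rw [← h1]
    exact hF
  have hq2 : IsIntegral ℤ (((Nat.card D : ℚ) * (a : ℚ)) / (c : ℚ) : ℚ) := by
    have h1 : Function.Injective (algebraMap ℚ ℂ) := (algebraMap ℚ ℂ).injective
    exact (isIntegral_algebraMap_iff h1).1 hq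
  obtain ⟨b, hb⟩ := IsIntegrallyClosed.isIntegral_iff.1 hq2
  have hb2 : (Nat.card D : ℤ) * a = (c : ℤ) * b := by
    have h1 : (c : ℚ) ≠ 0 := by exact_mod_cast hc0.ne'
    have h2 : ((b : ℤ) : ℚ) = ((Nat.card D : ℚ) * (a : ℚ)) / (c : ℚ) := hb
    rw [eq_div_iff h1] at h2
    have h3 : (((Nat.card D : ℤ) * a : ℤ) : ℚ) = (((c : ℤ) * b : ℤ) : ℚ) := by
      push_cast
      rw [← h2]
      ring
    exact_mod_cast h3
  have hcop : IsCoprime (c : ℤ) (Nat.card D : ℤ) := by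
    rw [Int.isCoprime_iff_gcd_eq_one, Int.gcd_natCast_natCast]
    have : Fact p.Prime := ⟨hS.pr⟩
    obtain ⟨k, hk⟩ := IsPGroup.iff_card.1 lo.rt.dfa.pgrp
    rw [hk]
    exact (Nat.Coprime.pow_right k ((Nat.Prime.coprime_iff_not_dvd hS.pr).2 hpc).symm)
  have hca : (c : ℤ) ∣ a := hcop.dvd_of_dvd_mul_left ⟨b, hb2⟩
  have hle : c ≤ a.natAbs := by
    have h1 : c ∣ a.natAbs := Int.natCast_dvd.1 hca
    exact Nat.le_of_dvd (Int.natAbs_pos.2 ha0) h1
  show Nat.card S ≤ Nat.card (cz D) * a.natAbs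
  rw [hcS]
  exact Nat.mul_le_mul_left _ hle

end Pool.Agent.BR
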