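import Pool.Agent.helper7.ZB.DefsZ

/-!
# Blocks whose defect group has an abelian subgroup of bounded index and rank: definitions for the statement
-/

set_option autoImplicit false

namespace Pool.Agent.ZBS

variable {G : Type} [Group G]

/-- `A` is an abelian subgroup of `D` (not necessarily normal), of index at most `p ^ f`, with at most `p ^ r` elements of order dividing
`p` (the rank of `A` is at most `r`), and `1 ≤ r ≤ p - 2`. -/
structure AbelianRank (p f r : ℕ) (D A : Subgroup G) : Prop where
  pos : 1 ≤ r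
  lt : r + 2 ≤ p
  le : A ≤ D
  comm : ∀ x ∈ A, ∀ y ∈ A, x * y = y * x
  index : Nat.card D ≤ p ^ f * Nat.card A
  rank : {u : G | u ∈ A ∧ u ^ p = 1}.ncard ≤ p ^ r

/-- The number `c = f (f + 1) / 2`: the `p ^ c`-th powers of the elements of `A` will be central in `D`. -/
def cexp (f : ℕ) : ℕ := f * (f + 1) / 2

/-- The number `N = r (a + w)`, `w = boundExp p a r`. -/
def thr (p a r : ℕ) : ℕ := r * (a + boundExp p a r)

/-- For some `a` and `r` the group `D` has a central subgroup `Z` with `|D : Z| ≤ p ^ a` and of rank at most `r`, `r ≥ 1`, and the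
exponent of `Z` is larger than `p ^ N`, `N = thr p a r`, or `|D| > p ^ (a + r N)`. So, for given `p`, `a` and `r`, all `p`-groups `D` with
`|D : Z(D)| ≤ p ^ a` and `Z(D)` of rank at most `r`, except finitely many. -/
def BoundedCentre (p : ℕ) (D : Subgroup G) : Prop :=
  ∃ (a r : ℕ) (Z : Subgroup G), CentralRank p a r D Z ∧
    ((∃ z ∈ Z, z ^ p ^ thr p a r ≠ 1) ∨ p ^ (a + r * thr p a r) < Nat.card D)

/-- For some `f` and `r`, `1 ≤ r ≤ p - 2`, the group `D` has an abelian subgroup `A` with `|D : A| ≤ p ^ f` and of rank at most `r`, and the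
exponent of `A` is larger than `p ^ (c + N)`, `c = cexp f`, `N = thr p (f + r c) r`, or `|D| > p ^ (f + r (c + N))`. So, for given `p`, `f`
and `r ≤ p - 2`, all `p`-groups `D` with such an abelian subgroup, except finitely many. -/
def BoundedAbelian (p : ℕ) (D : Subgroup G) : Prop :=
  ∃ (f r : ℕ) (A : Subgroup G), AbelianRank p f r D A ∧
    ((∃ z ∈ A, z ^ p ^ (cexp f + thr p (f + r * cexp f) r) ≠ 1) ∨
      p ^ (f + r * (cexp f + thr p (f + r * cexp f) r)) < Nat.card D)

end Pool.Agent.ZBS
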