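import Mathlib
import Pool.Agent.helper70.LZ.SpecZ

/-!
# Project BR (MP_baa4d7_al), BOUND-R: `l(B) ≤ |I| ^ 2 |D : K| ^ 2`, `K = D ^ (p ^ (h + 1))`, `|I| < p ^ (h + 1)`, `D` abelian; interface

NO condition on the inertial quotient and on the invariants of `D` other than the rank. For fixed `p` and rank `r` the weight conjecture (Knörr-Robinson form) follows for all abelian `D` of exponent at least `p ^ (r * (r + 1) ^ 2)`, that is for all but finitely many abelian `D` of rank `r`.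
-/

set_option autoImplicit false

namespace Pool.Agent.BR

open Pool.Agent.helper58.DC Pool.Agent.DI Pool.Agent.GR Pool.Agent.OB Pool.Agent.DR Pool.Agent.FI Pool.Agent.FI3 Pool.Agent.FI4 Pool.Agent.LE

section

variable {G : Type} [Group G]

/-- The contribution `P_u(ψ, ψ')` of the subsection `(u, b(θ)^(C(u)))`: `|K|⁻¹ ∑ ψ(u v e_u) ψ'((u v)⁻¹)`, over the `p`-regular `v ∈ K = C(u)`, `e_u` the idempotent of the block `b(θ)^K`. -/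
noncomputable def PP (p : ℕ) (M : Ideal (integralClosure ℤ ℂ)) (θ ψ ψ' : G → ℂ) (u : G) : ℂ :=
  (∑ᶠ v ∈ {v : G | v ∈ Cz (⊤ : Subgroup G) u ∧ PReg p v},
    ev ψ (eS (Cz (⊤ : Subgroup G) u) (Bl M (Cz (⊤ : Subgroup G) u) θ)) (u * v) * ψ' (u * v)⁻¹) /
      Nat.card (Cz (⊤ : Subgroup G) u)

/-- `|C_I(u)| = |C_T(u)| / |C_G(D)|`, `T = TT M D θ`. -/
noncomputable def ci (M : Ideal (integralClosure ℤ ℂ)) (D : Subgroup G) (θ : G → ℂ) (u : G) : ℂ :=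
  (Nat.card (Cz (TT M D θ) u) : ℂ) / Nat.card (cz D)

/-- The multiplicity `n_l(ψ, ψ') = ∑_{u ∈ D} |C_I(u)| l(u) P_u(ψ, ψ')` (the multiplicity of `ψ'` in `l^I * ψ`). -/
noncomputable def nl (p : ℕ) (M : Ideal (integralClosure ℤ ℂ)) (D : Subgroup G) (θ : G → ℂ) (l : D →* ℂˣ) (ψ ψ' : G → ℂ) : ℂ :=
  ∑ᶠ u : D, ci M D θ u * (l u : ℂ) * PP p M θ ψ ψ' u

end

/-! ## 1. Block BP (helper12, helper37): Broué-Puig, local form -/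

/-- **BPM**. `n_l(ψ, ψ')` is integral at `p`. -/
def BPM_stmt : Prop :=
  ∀ (p : ℕ) (M : Ideal (integralClosure ℤ ℂ)), Setup p M → ∀ (G : Type) [Group G] [Finite G]
    (D : Subgroup G) (x : G) (θ χ : G → ℂ), LoA p M D x θ χ → ∀ l : D →* ℂˣ,
    ∀ ψ ∈ Bl M (⊤ : Subgroup G) θ, ∀ ψ' ∈ Bl M (⊤ : Subgroup G) θ, IntAt M (nl p M D θ l ψ ψ')

/-! ## 2. Block N (helper58): from `p`-integrality to integrality, counting, numerics -/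

/-- **BPQ**. `n_l(ψ, ψ')` is a rational integer. Proof: `|D| PP ψ ψ' (u ^ s) = P(ζ ^ s)` with an integer polynomial `P` (PPL), so `|D| n_l` is an algebraic integer, fixed by the Galois group (`u ↦ u ^ s` is a bijection of `D`, `ci (u ^ s) = ci u`, `l (u ^ s) = l u ^ s`), and BPM. -/
def BPQ_stmt : Prop :=
  ∀ (p : ℕ) (M : Ideal (integralClosure ℤ ℂ)), Setup p M → ∀ (G : Type) [Group G] [Finite G]
    (D : Subgroup G) (x : G) (θ χ : G → ℂ), LoA p M D x θ χ → ∀ l : D →* ℂˣ,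
    ∀ ψ ∈ Bl M (⊤ : Subgroup G) θ, ∀ ψ' ∈ Bl M (⊤ : Subgroup G) θ, ∃ n : ℤ, nl p M D θ l ψ ψ' = (n : ℂ)

/-- **PPL** (compare ZPL; from ZAX-type expansion, ZL5). For every `u ∈ D` with `u ^ n = 1`: `|D| P_(u^s)(ψ, ψ')` is an integer polynomial in `ζ ^ s` for all `s` PRIME TO `p`. -/
def PPL_stmt : Prop :=
  ∀ (p : ℕ) (M : Ideal (integralClosure ℤ ℂ)), Setup p M → ∀ (G : Type) [Group G] [Finite G]
    (D : Subgroup G) (x : G) (θ χ : G → ℂ), LoA p M D x θ χ → ∀ u ∈ D,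
    ∀ ψ ∈ IrrOn (⊤ : Subgroup G), ∀ ψ' ∈ IrrOn (⊤ : Subgroup G), ∀ n : ℕ, 0 < n → u ^ n = 1 → ∀ ζ : ℂ, IsPrimitiveRoot ζ n →
    ∃ P : Polynomial ℤ, ∀ s : ℕ, ¬ p ∣ s → (Nat.card D : ℂ) * PP p M θ ψ ψ' (u ^ s) = Polynomial.aeval (ζ ^ s) P

/-- **CTR** (counting). `K = D ^ (p ^ (h + 1))` (given by its elements), `iI < p ^ (h + 1)`. -/
def CTR_stmt : Prop :=
  ∀ (p : ℕ) (M : Ideal (integralClosure ℤ ℂ)), Setup p M → p ≠ 2 → ∀ (G : Type) [Group G] [Finite G]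
    (D : Subgroup G) (x : G) (θ χ : G → ℂ), LoA p M D x θ χ → ∀ h : ℕ, iI M D θ < p ^ (h + 1) →
    ∀ K : Subgroup G, (∀ c : G, c ∈ K ↔ ∃ d ∈ D, d ^ p ^ (h + 1) = c) →
    ∀ m : ℕ, Gm2 p (Nat.card G) m →
    {ψ : G → ℂ | ψ ∈ Bl M (⊤ : Subgroup G) θ ∧ PR m ψ}.ncard ≤ iI M D θ ^ 2 * K.relIndex D ^ 2

/-- The rank of `D` is at most `r` (at most `p ^ r` elements of order dividing `p`) and the exponent of `D` is at least `p ^ c`. -/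
def HRK (p r c : ℕ) : HP := fun _ _ _ D _ => {u | u ∈ D ∧ u ^ p = 1}.ncard ≤ p ^ r ∧ ∃ z ∈ D, z ^ p ^ (c - 1) ≠ 1

/-- **BDR2** (the bound; from CTR, LOA, GM2, CNL, LLN, TPR; `|I| < p ^ (r (r + 1) / 2)`, `|D : K| ≤ p ^ (r (h + 1))`). -/
def BDR2_stmt : Prop :=
  ∀ (p : ℕ) (M : Ideal (integralClosure ℤ ℂ)), Setup p M → p ≠ 2 → ∀ r : ℕ, 1 ≤ r →
    BDH p M (HRK p r (r * (r + 1) ^ 2)) (p ^ (r * (r + 1) ^ 2))

/-! ## 3. Block H (helper59): the character `ψ₀`, valuations, projections -/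

/-- **PS0** (O1, O2). `ψ₀` is fixed by the Galois automorphisms with exponent `≡ 1` modulo `p`, and `|D| P_1(ψ, ψ₀)` is a rational integer not divisible by `p ^ (h + 1)`. -/
def PS0_stmt : Prop :=
  ∀ (p : ℕ) (M : Ideal (integralClosure ℤ ℂ)), Setup p M → p ≠ 2 → ∀ (G : Type) [Group G] [Finite G]
    (D : Subgroup G) (x : G) (θ χ : G → ℂ), LoA p M D x θ χ → ∀ m : ℕ, Gm2 p (Nat.card G) m →
    ∃ ψ₀ ∈ Bl M (⊤ : Subgroup G) θ, PR m ψ₀ ∧ ∀ h : ℕ, iI M D θ < p ^ (h + 1) → ∀ ψ ∈ Bl M (⊤ : Subgroup G) θ,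
      ∃ N : ℤ, (Nat.card D : ℂ) * PP p M θ ψ ψ₀ 1 = (N : ℂ) ∧ ¬ ((p : ℤ) ^ (h + 1)) ∣ N

/-- **PRO** (O3). The sum of the orthogonal projections over the classes of a subgroup `K`. -/
def PRO_stmt : Prop :=
  ∀ (p : ℕ) (M : Ideal (integralClosure ℤ ℂ)), Setup p M → ∀ (G : Type) [Group G] [Finite G]
    (D : Subgroup G) (x : G) (θ χ : G → ℂ), LoA p M D x θ χ → ∀ K ≤ D, (∀ t ∈ TT M D θ, ∀ k ∈ K, t * k * t⁻¹ ∈ K) →
    ∀ ψ₀ ∈ Bl M (⊤ : Subgroup G) θ,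
    ∑ᶠ ψ ∈ Bl M (⊤ : Subgroup G) θ, ‖∑ᶠ u ∈ (K : Set G), ci M D θ u * PP p M θ ψ ψ₀ u‖ ^ 2 ≤ ((iI M D θ : ℝ)) ^ 2

/-- **PIV** (O4). Invariance under the Galois automorphisms with exponent `≡ 1` modulo `p`. -/
def PIV_stmt : Prop :=
  ∀ (p : ℕ) (M : Ideal (integralClosure ℤ ℂ)), Setup p M → ∀ (G : Type) [Group G] [Finite G] (θ : G → ℂ) (m : ℕ),
    Gm2 p (Nat.card G) m → ∀ ψ ∈ IrrOn (⊤ : Subgroup G), PR m ψ → ∀ ψ' ∈ IrrOn (⊤ : Subgroup G), PR m ψ' → ∀ u : G, PEl p u →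
    ∀ s : ℕ, s ≡ 1 [MOD p] → PP p M θ ψ ψ' (u ^ s) = PP p M θ ψ ψ' u

end Pool.Agent.BR
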