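import Pool.Agent.helper12.BR.FinD
import Pool.Agent.helper12.BR.AllR
import Pool.Agent.helper12.BR.AllD
import Pool.Agent.helper12.BR.ABZ
import Pool.Agent.helper7.ZB.FinZ2

/-!
# MP_baa4d7_al: the final theorem (version 6)
-/

set_option autoImplicit false

namespace Pool.Agent.LE

open Pool.Agent.helper58.DC Pool.Agent.DI Pool.Agent.GR Pool.Agent.OB Pool.Agent.DR Pool.Agent.FI Pool.Agent.FI3 Pool.Agent.FI4 Pool.Agent.FIL
open Pool.Agent.LE.AllL Pool.Agent.LE.AllZ Pool.Agent.LE.AllV3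

/-- From the sum over `d` to each `d`, for abelian `D`. -/
theorem FinE_each (hLOA : LOA_stmt) (hA : R2A_stmt) (hC : R2Ca_stmt) (hD : R2Da_stmt) (hRKZ : RKZ_stmt)
    (hHHE : HHE_stmt) (hHZH : HZH_stmt) (hDH5 : Pool.Agent.L5.DH5_stmt)
    (p : ℕ) (hpr : p.Prime) (hp2 : p ≠ 2) (M : Ideal (integralClosure ℤ ℂ)) (hM : M.IsMaximal)
    (hp : (p : integralClosure ℤ ℂ) ∈ M) (G : Type) [Group G] [Finite G]
    (χ : G → ℂ) (hχ : χ ∈ Irr G) (D : Subgroup G) (θ : G → ℂ)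
    (h : AbelianDefect p M χ D θ) (E A : Type) [Group E] [Group A] [Finite E] (X : Extension G E A) (U : Subgroup A)
    (h0 : ∑ᶠ d : ℤ, altSum X p M χ d U = 0) (h1 : FewNonRegular p M D θ ∨ HeightZero p M χ D) (d : ℤ) :
    altSum X p M χ d U = 0 := by
  have hS : Setup p M := ⟨hpr, hM, hp⟩
  have : Fact p.Prime := ⟨hpr⟩
  obtain ⟨⟨x, hR⟩, -⟩ := FinL_std hpr hM hp hχ h
  rcases h1 with h1 | h1
  · obtain ⟨a, ha⟩ := IsPGroup.iff_card.1 hR.dfa.pgrp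
    have h2 : ∀ d : ℤ, d ≠ a → altSum X p M χ d U = 0 := fun d hd =>
      hDH5 p M hS (HZE p) (hHHE p hpr 0 0).2.2.1 (hHZH p M hS hp2) G E A X D x θ χ hR
        (FinL_zero hLOA hA hC hD hRKZ hpr hp2 hM hp hχ h h1) a ha d hd U
    by_cases hd : d = a
    · subst hd
      rw [← h0]
      exact (finsum_eq_single (fun d : ℤ => altSum X p M χ d U) (a : ℤ) h2).symm
    · exact h2 d hd
  · exact FinL_km p hpr M G E A X χ D hR.dfa.pgrp h1 U h0 d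

/-- Version 6. -/
theorem FinE (p : ℕ) (hpr : p.Prime) (M : Ideal (integralClosure ℤ ℂ)) (hM : M.IsMaximal)
    (hp : (p : integralClosure ℤ ℂ) ∈ M) (G : Type) [Group G] [Finite G] (hG : IsOp p (⊤ : Subgroup G) ⊥)
    (χ : G → ℂ) (hχ : χ ∈ Irr G) (D : Subgroup G) (hD : Pool.Agent.MAP.DefectGroup p M χ D)
    (E A : Type) [Group E] [Group A] [Finite E] (X : Extension G E A) (s : A) (n v : ℕ) (hn : 0 < n)
    (hsn : s ^ n ∈ Pool.Agent.BQ.AI X M χ) (hpn : ¬ p ∣ n)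
    (hs : ∀ a ∈ Pool.Agent.BQ.AB X M χ, ∃ k : ℤ, s ^ k * a ∈ Pool.Agent.BQ.AI X M χ)
    (hL : Pool.Agent.ZBS.BoundedCentre p D ∨ Pool.Agent.ZBS.BoundedAbelian p D ∨
      (p ≠ 2 ∧ ∃ θ : G → ℂ, AbelianDefect p M χ D θ ∧
        (LargeGroup p D ∨ (LargeAbelian p M D θ v ∧ ¬ p ^ (v + 1) ∣ Pool.Agent.MAPW.J2 n)))) (U : Subgroup A) :
    ∑ᶠ d : ℤ, altSum X p M χ d U = 0 ∧
      (p ≠ 2 → ∀ θ : G → ℂ, AbelianDefect p M χ D θ → FewNonRegular p M D θ ∨ HeightZero p M χ D →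
        ∀ d : ℤ, altSum X p M χ d U = 0) := by
  have h0 : ∑ᶠ d : ℤ, altSum X p M χ d U = 0 := by
    rcases hL with hL | hL | ⟨hp2, θ, h, hL⟩
    · obtain ⟨a, r, hL⟩ := Pool.Agent.ZBS.large_of_centre hL
      exact Pool.Agent.ZBS.dade p hpr M hM hp G hG χ hχ D hD a r hL E A X s n hsn hpn hs U
    · obtain ⟨x, hx⟩ := Pool.Agent.XD.defAt_of ⟨hpr, hM, hp⟩ hχ hD
      obtain ⟨a, r, hL⟩ := Pool.Agent.ZBS.large_of_abelian hpr hx.pgrp hL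
      exact Pool.Agent.ZBS.dade p hpr M hM hp G hG χ hχ D hD a r hL E A X s n hsn hpn hs U
    · rcases hL with hL | hL
      · exact (FinD_dade aLOA aR2A aR2B aR2Ca aR2Da aRKR aREX aRKZ aHHE aBDE aHZH zHEZ zBDZ aDC5 aEJ5 rDH5 rBD4 rRKP p hpr hp2 M
          hM hp G χ hχ D θ h hG E A X s n hsn hpn hs hL U).1
      · exact (FinR_dade aLOA aR2A aR2B aR2Ca aR2Da aRKR aREX aRKZ aHHE aBDE aHZH zHEZ zBDZ aDC5 aEJ5 rBD4 rRKP p hpr hp2 M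
          hM hp G χ hχ D θ h hG E A X s n v hn hsn hpn hL.2 hs hL.1 U).1
  exact ⟨h0, fun hp2 θ h h1 d => FinE_each aLOA aR2A aR2Ca aR2Da aRKZ aHHE aHZH rDH5 p hpr hp2 M hM hp G χ hχ D θ h E A X U h0 h1 d⟩

end Pool.Agent.LE
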