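import Pool.Agent.helper45.BR.Spec

set_option autoImplicit false

open Complex Metric Set Filter Topology MeasureTheory MPS Pool.Agent.helper98.ILF
  Pool.Agent.helper16.Multibrot
open scoped ContDiff

noncomputable section

namespace BR

/-- the integral of a directional derivative of a compactly supported `C¹` function vanishes. -/
theorem HLZ_int (w : ℂ → ℂ) (hw : ContDiff ℝ 1 w) (hc : HasCompactSupport w) (u : ℂ) :
    ∫ z : ℂ, fderiv ℝ w z u = 0 := by
  have hcont : Continuous (fun z => fderiv ℝ w z u) :=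
    (hw.continuous_fderiv (by norm_num)).clm_apply continuous_const
  have hcs : HasCompactSupport (fun z => fderiv ℝ w z u) := by
    have h1 : HasCompactSupport (fderiv ℝ w) := hc.fderiv ℝ
    exact h1.comp_left (g := fun L : ℂ →L[ℝ] ℂ => L u) (by simp)
  have h := integral_mul_fderiv_eq_neg_fderiv_mul_of_integrable (μ := (volume : Measure ℂ))
    (f := fun _ : ℂ => (1 : ℂ)) (g := w) (v := u)
    (by simp) (by simpa using hcont.integrable_of_hasCompactSupport hcs)
    (by simpa using hw.continuous.integrable_of_hasCompactSupport hc)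
    (fun x _ => differentiableAt_const _) (fun x _ => (hw.differentiable (by norm_num)) x)
  simpa using h

theorem HLZ_dbar (w : ℂ → ℂ) (hw : ContDiff ℝ 1 w) (hc : HasCompactSupport w) :
    ∫ z : ℂ, dbar w z = 0 := by
  have hcont : ∀ u : ℂ, Continuous (fun z => fderiv ℝ w z u) := fun u =>
    (hw.continuous_fderiv (by norm_num)).clm_apply continuous_const
  have hcs : ∀ u : ℂ, HasCompactSupport (fun z => fderiv ℝ w z u) := by
    intro u
    have h1 : HasCompactSupport (fderiv ℝ w) := hc.fderiv ℝ
    exact h1.comp_left (g := fun L : ℂ →L[ℝ] ℂ => L u) (by simp)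
  have hi : ∀ u : ℂ, Integrable (fun z => fderiv ℝ w z u) := fun u =>
    (hcont u).integrable_of_hasCompactSupport (hcs u)
  unfold dbar
  rw [integral_div, integral_add (hi 1) ((hi I).const_mul I), integral_const_mul,
    HLZ_int w hw hc, HLZ_int w hw hc]
  simp

theorem HLZ_prod (v φ : ℂ → ℂ) (Ω : Set ℂ) (hΩ : IsOpen Ω) (hv : DifferentiableOn ℂ v Ω)
    (hφ : ContDiff ℝ 2 φ) (hc : HasCompactSupport φ) (hs : tsupport φ ⊆ Ω) :
    ∫ z : ℂ, v z * dbar φ z = 0 := by
  have hφ1 : ContDiff ℝ 1 φ := hφ.of_le (by norm_num)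
  have hout : ∀ z, z ∉ tsupport φ → φ =ᶠ[𝓝 z] fun _ => 0 := fun z hz =>
    notMem_tsupport_iff_eventuallyEq.1 hz
  have hvC : ∀ z ∈ Ω, ContDiffAt ℝ 1 v z := fun z hz =>
    ((hv.contDiffOn hΩ (n := 1)).contDiffAt (hΩ.mem_nhds hz)).restrict_scalars ℝ
  have hw : ContDiff ℝ 1 (fun z => v z * φ z) := by
    rw [contDiff_iff_contDiffAt]
    intro z
    by_cases hz : z ∈ tsupport φ
    · exact (hvC z (hs hz)).mul hφ1.contDiffAt
    · have h1 : (fun z => v z * φ z) =ᶠ[𝓝 z] fun _ => (0 : ℂ) := by
        filter_upwards [hout z hz] with y hy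
        rw [hy, mul_zero]
      exact contDiffAt_const.congr_of_eventuallyEq h1
  have hwc : HasCompactSupport (fun z => v z * φ z) := hc.mul_left
  have key : ∀ z, dbar (fun z => v z * φ z) z = v z * dbar φ z := by
    intro z
    by_cases hz : z ∈ tsupport φ
    · have hvd : DifferentiableAt ℂ v z := (hv z (hs hz)).differentiableAt (hΩ.mem_nhds (hs hz))
      have hvr : DifferentiableAt ℝ v z := hvd.restrictScalars ℝ
      have hφd : DifferentiableAt ℝ φ z := (hφ1.differentiable (by norm_num)) z
      have hf : ∀ u : ℂ, fderiv ℝ v z u = deriv v z * u := by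
        intro u
        have h1 : fderiv ℝ v z = (fderiv ℂ v z).restrictScalars ℝ := hvd.fderiv_restrictScalars ℝ
        rw [h1]
        simp only [ContinuousLinearMap.coe_restrictScalars']
        have : (fderiv ℂ v z) u = (fderiv ℂ v z) (u • (1 : ℂ)) := by simp
        rw [this, map_smul, smul_eq_mul, fderiv_apply_one_eq_deriv, mul_comm]
      unfold dbar
      rw [fderiv_fun_mul hvr hφd]
      simp only [add_apply, smul_apply, smul_eq_mul, hf]
      linear_combination (φ z * deriv v z / 2) * I_mul_I
    · have h0 := hout z hz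
      have h1 : (fun z => v z * φ z) =ᶠ[𝓝 z] fun _ => (0 : ℂ) := by
        filter_upwards [h0] with y hy
        rw [hy, mul_zero]
      unfold dbar
      rw [h1.fderiv_eq, h0.fderiv_eq]
      simp
  calc ∫ z : ℂ, v z * dbar φ z = ∫ z : ℂ, dbar (fun z => v z * φ z) z :=
        integral_congr_ae (Eventually.of_forall fun z => (key z).symm)
    _ = 0 := HLZ_dbar _ hw hwc

theorem HLZ : HLZ_stmt := by
  intro v m Ω M hΩ _ hv hm hM hdist
  refine hΩ.ae_eq_zero_of_integral_contDiff_smul_eq_zero ?_ ?_
  · refine LocallyIntegrable.locallyIntegrableOn ?_ _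
    rw [locallyIntegrable_iff]
    intro k hk
    refine Measure.integrableOn_of_bounded (M := M) hk.measure_lt_top.ne hm.aestronglyMeasurable ?_
    exact Eventually.of_forall hM
  · intro g hg hgc hgs
    set φ : ℂ → ℂ := fun z => ((g z : ℝ) : ℂ) with hφ
    have hφC : ContDiff ℝ 2 φ := by
      have h1 : ContDiff ℝ 2 g := hg.of_le (by norm_cast)
      exact Complex.ofRealCLM.contDiff.comp h1
    have hφc : HasCompactSupport φ := hgc.comp_left (g := fun x : ℝ => (x : ℂ)) (by simp)
    have hts : tsupport φ ⊆ tsupport g := by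
      refine closure_mono fun z hz => ?_
      rw [Function.mem_support] at hz ⊢
      intro h0
      exact hz (by rw [hφ]; simp [h0])
    have h1 := hdist φ hφC hφc
    rw [HLZ_prod v φ Ω hΩ hv hφC hφc (hts.trans hgs)] at h1
    have h2 : ∫ z : ℂ, m z * φ z = 0 := by
      have := neg_eq_zero.1 h1.symm
      exact this
    rw [← h2]
    refine integral_congr_ae (Eventually.of_forall fun z => ?_)
    show g z • m z = m z * φ z
    rw [Complex.real_smul, mul_comm]

end BR
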