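import Pool.Agent.helper12.BR.PU2

/-!
# Project BR (MP_baa4d7_al): `∑_ψ |n_l(ψ, ψ₀)|² ≤ |I|²` for every `l` (adaptation of PRO, helper81)
-/

set_option autoImplicit false

namespace Pool.Agent.BR

open Pool.Agent.helper58.DC Pool.Agent.DI Pool.Agent.GR Pool.Agent.OB Pool.Agent.DR Pool.Agent.FI Pool.Agent.FI3 Pool.Agent.FI4 Pool.Agent.LE

/-- **PRL**. -/
def PRL_stmt : Prop :=
  ∀ (p : ℕ) (M : Ideal (integralClosure ℤ ℂ)), Setup p M → ∀ (G : Type) [Group G] [Finite G]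
    (D : Subgroup G) (x : G) (θ χ : G → ℂ), LoA p M D x θ χ → ∀ l : D →* ℂˣ, ∀ ψ₀ ∈ Bl M (⊤ : Subgroup G) θ,
    ∑ᶠ ψ ∈ Bl M (⊤ : Subgroup G) θ, ‖nl p M D θ l ψ ψ₀‖ ^ 2 ≤ ((iI M D θ : ℝ)) ^ 2

/-- The values of a linear character of a finite group have absolute value `1`. -/
theorem PRL_nrm {D : Type} [Group D] [Finite D] (l : D →* ℂˣ) (u : D) : ‖(l u : ℂ)‖ = 1 := by
  have h1 : (l u : ℂ) ^ Nat.card D = 1 := by
    rw [← Units.val_pow_eq_pow_val, ← map_pow, pow_card_eq_one', map_one, Units.val_one]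
  exact Complex.norm_eq_one_of_pow_eq_one h1 Nat.card_pos.ne'

theorem PRL (hHWT : HWT_stmt) (hHPT : HPT_stmt) (hHPO : HPO_stmt) (hB2 : B2_stmt) : PRL_stmt := by
  intro p M hM G _ _ D x θ χ lo l ψ₀ hψ₀
  classical
  have hfin : (Bl M (⊤ : Subgroup G) θ).Finite := (hB2 G ⊤).1.subset fun ψ hψ => hψ.1
  have : Fintype (Bl M (⊤ : Subgroup G) θ) := hfin.fintype
  have : Fintype D := Fintype.ofFinite D
  have hKT : ∀ t ∈ TT M D θ, ∀ k ∈ D, t * k * t⁻¹ ∈ D := fun t ht k hk => (Subgroup.mem_normalizer_iff.1 ht.1 k).1 hk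
  have hW := fun u : D => hHWT M G D θ lo.rt.th u.1 u.2
  choose c hc1 hc using fun u : D => (hW u).2
  have hI0 : iI M D θ ≠ 0 := by
    unfold iI
    exact Subgroup.index_ne_zero_of_finite
  have hI : (0 : ℝ) < iI M D θ := by exact_mod_cast Nat.pos_of_ne_zero hI0
  have key := PU2_bes (Bl M (⊤ : Subgroup G) θ) D (fun u u' => ∃ t ∈ TT M D θ, t * (u : G) * t⁻¹ = u') (fun u => c u / iI M D θ)
    (fun u ψ => PP p M θ ψ ψ₀ u) ⟨ψ₀, hψ₀⟩ (fun u => (l u : ℂ)) (fun u => (PRL_nrm l u).le)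
    (fun u => div_nonneg (by linarith [hc1 u]) hI.le) ?_ ?_ ?_ ?_
  · rw [← finsum_set_coe_eq_finsum_mem, finsum_eq_sum_of_fintype]
    have h3 : ∀ ψ : Bl M (⊤ : Subgroup G) θ, ‖nl p M D θ l ψ ψ₀‖ ^ 2 =
        (iI M D θ : ℝ) ^ 2 * ‖∑ u : D, ((c u / iI M D θ : ℝ) : ℂ) * (l u : ℂ) * PP p M θ ψ ψ₀ u‖ ^ 2 := by
      intro ψ
      have h4 : nl p M D θ l ψ ψ₀ =
          ((iI M D θ : ℝ) : ℂ) * ∑ u : D, ((c u / iI M D θ : ℝ) : ℂ) * (l u : ℂ) * PP p M θ ψ ψ₀ u := by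
        unfold nl
        rw [finsum_eq_sum_of_fintype, Finset.mul_sum]
        refine Finset.sum_congr rfl fun u _ => ?_
        rw [hc u, ← mul_assoc, ← mul_assoc, ← Complex.ofReal_mul]
        congr 3
        field_simp
      rw [h4, norm_mul, Complex.norm_real, Real.norm_of_nonneg hI.le, mul_pow]
    rw [Finset.sum_congr rfl fun ψ _ => h3 ψ, ← Finset.mul_sum]
    calc (iI M D θ : ℝ) ^ 2 * ∑ ψ : Bl M (⊤ : Subgroup G) θ, ‖∑ u : D, ((c u / iI M D θ : ℝ) : ℂ) * (l u : ℂ) * PP p M θ ψ ψ₀ u‖ ^ 2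
        ≤ (iI M D θ : ℝ) ^ 2 * 1 := mul_le_mul_of_nonneg_left key (by positivity)
      _ = _ := mul_one _
  · -- the weights
    intro u
    have h1 := (hW u).1
    have h2 : {u' : G | ∃ t ∈ TT M D θ, t * (u : G) * t⁻¹ = u'} = (Subtype.val : D → G) '' {u' : D | ∃ t ∈ TT M D θ, t * (u : G) * t⁻¹ = u'} := by
      ext g
      constructor
      · rintro ⟨t, ht, rfl⟩
        exact ⟨⟨_, hKT t ht u u.2⟩, ⟨t, ht, rfl⟩, rfl⟩
      · rintro ⟨u', ⟨t, ht, h⟩, rfl⟩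
        exact ⟨t, ht, h⟩
    rw [h2, finsum_mem_image Subtype.val_injective.injOn, finsum_mem_eq_finite_toFinset_sum _ (Set.toFinite _)] at h1
    rw [finsum_mem_eq_finite_toFinset_sum _ (Set.toFinite _), ← Finset.sum_div]
    have h3 : ((∑ u' ∈ (Set.toFinite {u' : D | ∃ t ∈ TT M D θ, t * (u : G) * t⁻¹ = u'}).toFinset, c u' : ℝ) : ℂ) = ((iI M D θ : ℝ) : ℂ) := by
      push_cast
      rw [← h1]
      exact Finset.sum_congr rfl fun u' _ => (hc u').symm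
    rw [Complex.ofReal_injective h3, div_self hI.ne']
  · rintro u u' ⟨t, ht, h⟩
    funext ψ
    show PP p M θ ψ ψ₀ u' = PP p M θ ψ ψ₀ u
    rw [← h]
    exact hHPT p M hM G D x θ χ lo u u.2 t ht ψ ψ.2.1 ψ₀ hψ₀.1
  · intro u u' h
    have h1 := (hHPO p M hM G D x θ χ lo ψ₀ hψ₀ u u.2).2 u' u'.2 (fun t ht h2 => h ⟨t, ht, h2⟩)
    rw [← finsum_set_coe_eq_finsum_mem, finsum_eq_sum_of_fintype] at h1
    exact h1
  · intro u
    have h1 := (hHPO p M hM G D x θ χ lo ψ₀ hψ₀ u u.2).1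
    rw [← finsum_set_coe_eq_finsum_mem, finsum_eq_sum_of_fintype] at h1
    exact h1

end Pool.Agent.BR
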