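import Pool.Agent.helper59.BR.SpecH
import Pool.Agent.helper58.BR.SpecN
import Pool.Agent.helper63.BR.HBP
import Pool.Agent.helper6.BR.CTP

/-!
# Project BR (MP_baa4d7_al): pure lemmas for the sharper form `l(B) ≤ |I| |D : K|` of BOUND-R
-/

set_option autoImplicit false

namespace Pool.Agent.BR

open Pool.Agent.helper58.DC Pool.Agent.DI Pool.Agent.GR Pool.Agent.OB Pool.Agent.DR Pool.Agent.FI Pool.Agent.FI3 Pool.Agent.FI4 Pool.Agent.LE

/-- The sum of an invariant function over a set on which a group acts: integral form of `FRB_orb`. -/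
theorem PU2_orb (H : Type) [Group H] [Finite H] (Z : Type) [Fintype Z] [MulAction H Z] (T : Z → ℂ)
    (hT : ∀ (h : H) (z : Z), T (h • z) = T z)
    (hI : ∀ z, IsIntegral ℤ (T z / Nat.card (MulAction.stabilizer H z))) : IsIntegral ℤ ((∑ z, T z) / Nat.card H) := by
  classical
  have hF : Fintype H := Fintype.ofFinite H
  let q : Z → MulAction.orbitRel.Quotient H Z := fun z => Quotient.mk'' z
  have h1 : ∑ z, T z = ∑ ω : MulAction.orbitRel.Quotient H Z, ∑ z ∈ Finset.univ.filter (fun z => q z = ω), T z :=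
    (Finset.sum_fiberwise_of_maps_to (fun _ _ => Finset.mem_univ _) _).symm
  rw [h1, Finset.sum_div]
  refine IsIntegral.sum _ fun ω _ => ?_
  obtain ⟨z0, rfl⟩ : ∃ z0, q z0 = ω := Quotient.exists_rep ω
  have h2 : ∀ z ∈ Finset.univ.filter (fun z => q z = q z0), T z = T z0 := by
    intro z hz
    have h3 : q z = q z0 := (Finset.mem_filter.1 hz).2
    have h4 : z ∈ MulAction.orbit H z0 := by
      have := Quotient.exact h3
      exact this
    obtain ⟨h, rfl⟩ := h4
    exact hT h z0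
  rw [Finset.sum_congr rfl h2, Finset.sum_const, nsmul_eq_mul]
  have h5 : (Finset.univ.filter (fun z => q z = q z0)).card = Nat.card (MulAction.orbit H z0) := by
    rw [Nat.card_eq_fintype_card, Fintype.card_subtype]
    congr 1
    ext z
    simp only [Finset.mem_filter, Finset.mem_univ, true_and]
    constructor
    · intro h
      exact Quotient.exact h
    · intro h
      exact Quotient.sound h
  have h6 : (Nat.card (MulAction.orbit H z0) : ℂ) * Nat.card (MulAction.stabilizer H z0) = Nat.card H := by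
    have := MulAction.card_orbit_mul_card_stabilizer_eq_card_group H z0
    rw [← Nat.card_eq_fintype_card, ← Nat.card_eq_fintype_card, ← Nat.card_eq_fintype_card] at this
    exact_mod_cast this
  have h7 : (Nat.card (MulAction.stabilizer H z0) : ℂ) ≠ 0 := by
    exact_mod_cast (Nat.card_pos (α := MulAction.stabilizer H z0)).ne'
  have h8 : (Nat.card H : ℂ) ≠ 0 := by
    exact_mod_cast (Nat.card_pos (α := H)).ne'
  rw [h5]
  have h9 : (Nat.card (MulAction.orbit H z0) : ℂ) * T z0 / Nat.card H = T z0 / Nat.card (MulAction.stabilizer H z0) := by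
    rw [← h6]
    have h10 : (Nat.card (MulAction.orbit H z0) : ℂ) ≠ 0 := by
      intro h0
      rw [h0, zero_mul] at h6
      exact h8 h6.symm
    field_simp
  rw [h9]
  exact hI z0

/-- Bessel's inequality (row HBP) with complex factors of absolute value at most `1`. -/
theorem PU2_bes (B : Type) [Fintype B] (Q : Type) [Fintype Q] (r : Q → Q → Prop) (w : Q → ℝ) (a : Q → B → ℂ) (b₀ : B) (e : Q → ℂ)
    (he : ∀ u, ‖e u‖ ≤ 1) (h0 : ∀ u, 0 ≤ w u)
    (h1 : ∀ u, ∑ᶠ u' ∈ {u' | r u u'}, w u' = 1) (h2 : ∀ u u', r u u' → a u' = a u)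
    (h3 : ∀ u u', ¬ r u u' → ∑ b, a u b * (starRingEnd ℂ) (a u' b) = 0) (h4 : ∀ u, ∑ b, a u b * (starRingEnd ℂ) (a u b) = a u b₀) :
    ∑ b, ‖∑ u, (w u : ℂ) * e u * a u b‖ ^ 2 ≤ 1 := by
  classical
  have hB := (HBP B Q r w a b₀ h0 h1 h2 h3 h4).2
  obtain ⟨c, hc⟩ : ∃ c : Q → ℝ, c = fun u => ∑ b, ‖a u b‖ ^ 2 := ⟨_, rfl⟩
  have hc0 : ∀ u, 0 ≤ c u := by
    intro u
    rw [hc]
    exact Finset.sum_nonneg fun b _ => by positivity
  have hac : ∀ u, a u b₀ = (c u : ℂ) := by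
    intro u
    rw [← h4 u, hc]
    simp only []
    rw [Complex.ofReal_sum]
    exact Finset.sum_congr rfl fun b _ => (HBP_nm _).symm
  have hB' : ∑ u, w u * c u ≤ 1 := by
    refine le_trans (le_of_eq (Finset.sum_congr rfl fun u _ => ?_)) hB
    rw [hac, Complex.norm_real, Real.norm_eq_abs, abs_of_nonneg (hc0 u)]
  have hin : ∀ u u', ∑ b, a u b * (starRingEnd ℂ) (a u' b) = if r u u' then (c u : ℂ) else 0 := by
    intro u u'
    by_cases h : r u u'
    · rw [if_pos h, h2 u u' h, h4, hac]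
    · rw [if_neg h, h3 u u' h]
  have hw : ∀ u, ∑ u', (if r u u' then w u' else 0) = 1 := by
    intro u
    have h5 := h1 u
    rw [HBP_fs] at h5
    exact h5
  obtain ⟨A, hA⟩ : ∃ A : B → ℂ, A = fun b => ∑ u, (w u : ℂ) * e u * a u b := ⟨_, rfl⟩
  have hS : ((∑ b, ‖A b‖ ^ 2 : ℝ) : ℂ) = ∑ u, ∑ u', (w u : ℂ) * (w u' : ℂ) * (e u * (starRingEnd ℂ) (e u')) *
      (if r u u' then (c u : ℂ) else 0) := by
    rw [Complex.ofReal_sum]
    have e1 : ∀ b, ((‖A b‖ ^ 2 : ℝ) : ℂ) = ∑ u, ∑ u', (w u : ℂ) * (w u' : ℂ) * (e u * (starRingEnd ℂ) (e u')) *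
        (a u b * (starRingEnd ℂ) (a u' b)) := by
      intro b
      rw [HBP_nm, hA]
      simp only []
      rw [map_sum, Finset.sum_mul_sum]
      refine Finset.sum_congr rfl fun u _ => Finset.sum_congr rfl fun u' _ => ?_
      rw [map_mul, map_mul, Complex.conj_ofReal]
      ring
    rw [Finset.sum_congr rfl fun b _ => e1 b, Finset.sum_comm]
    refine Finset.sum_congr rfl fun u _ => ?_
    rw [Finset.sum_comm]
    refine Finset.sum_congr rfl fun u' _ => ?_
    rw [← Finset.mul_sum, hin]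
  have hN : ‖((∑ b, ‖A b‖ ^ 2 : ℝ) : ℂ)‖ = ∑ b, ‖A b‖ ^ 2 := by
    rw [Complex.norm_real, Real.norm_eq_abs, abs_of_nonneg]
    exact Finset.sum_nonneg fun b _ => by positivity
  have hfin : ∑ b, ‖A b‖ ^ 2 ≤ ∑ u, w u * c u := by
    rw [← hN, hS]
    refine le_trans (norm_sum_le _ _) (Finset.sum_le_sum fun u _ => ?_)
    refine le_trans (norm_sum_le _ _) ?_
    have h5 : ∀ u', ‖(w u : ℂ) * (w u' : ℂ) * (e u * (starRingEnd ℂ) (e u')) * (if r u u' then (c u : ℂ) else 0)‖ ≤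
        w u * c u * (if r u u' then w u' else 0) := by
      intro u'
      have h6 : ‖e u * (starRingEnd ℂ) (e u')‖ ≤ 1 := by
        rw [norm_mul, RCLike.norm_conj]
        exact mul_le_one₀ (he u) (norm_nonneg _) (he u')
      rw [norm_mul, norm_mul, norm_mul, Complex.norm_real, Complex.norm_real, Real.norm_eq_abs, Real.norm_eq_abs,
        abs_of_nonneg (h0 u), abs_of_nonneg (h0 u')]
      by_cases h : r u u'
      · rw [if_pos h, if_pos h, Complex.norm_real, Real.norm_eq_abs, abs_of_nonneg (hc0 u)]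
        calc w u * w u' * ‖e u * (starRingEnd ℂ) (e u')‖ * c u ≤ w u * w u' * 1 * c u := by
              refine mul_le_mul_of_nonneg_right ?_ (hc0 u)
              exact mul_le_mul_of_nonneg_left h6 (mul_nonneg (h0 u) (h0 u'))
          _ = w u * c u * w u' := by ring
      · rw [if_neg h, if_neg h, norm_zero, mul_zero, mul_zero]
    refine le_trans (Finset.sum_le_sum fun u' _ => h5 u') ?_
    rw [← Finset.mul_sum, hw, mul_one]
  have h6 : ∑ b, ‖∑ u, (w u : ℂ) * e u * a u b‖ ^ 2 = ∑ b, ‖A b‖ ^ 2 := by rw [hA]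
  rw [h6]
  exact hfin.trans hB'

/-- Some `l` which is trivial on `K` has `n l ≠ 0`. -/
theorem PU2_cnt (hCTP : CTP_stmt) (hPER : PER_stmt) (p : ℕ) (hp : p.Prime) (hp2 : p ≠ 2) (h : ℕ) (D : Type) [CommGroup D] [Finite D]
    (hD : IsPGroup p D) (K : Subgroup D) (hK : ∀ c : D, c ∈ K ↔ ∃ d : D, d ^ p ^ (h + 1) = c) (c : D → ℂ) (n : (D →* ℂˣ) → ℤ)
    (hn : ∀ l, ∑ᶠ u, c u * (l u : ℂ) = (n l : ℂ)) (hc : ∀ u, c (u ^ (1 + p)) = c u) (N : ℤ) (hN : (Nat.card D : ℂ) * c 1 = (N : ℂ))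
    (hNp : ¬ ((p : ℤ) ^ (h + 1)) ∣ N) : ∃ l : D →* ℂˣ, (∀ u ∈ K, l u = 1) ∧ n l ≠ 0 := by
  classical
  have hfD : Fintype D := Fintype.ofFinite D
  have hfl : Finite (D →* ℂˣ) := by
    have h1 := (hPER D ⊥).1
    have h2 : Nat.card {w : D →* ℂˣ // ∀ u ∈ (⊥ : Subgroup D), w u = 1} ≠ 0 := by
      rw [h1, Subgroup.index_bot]
      exact Nat.card_pos.ne'
    have h3 : Finite {w : D →* ℂˣ // ∀ u ∈ (⊥ : Subgroup D), w u = 1} := Nat.finite_of_card_ne_zero h2
    have e : (D →* ℂˣ) ≃ {w : D →* ℂˣ // ∀ u ∈ (⊥ : Subgroup D), w u = 1} :=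
      { toFun := fun w => ⟨w, fun u hu => by rw [Subgroup.mem_bot.1 hu, map_one]⟩
        invFun := fun w => w.1
        left_inv := fun _ => rfl
        right_inv := fun _ => rfl }
    exact Finite.of_equiv _ e.symm
  have hfL : Fintype (D →* ℂˣ) := Fintype.ofFinite _
  have hn' : ∀ l : D →* ℂˣ, ∑ u, c u * (l u : ℂ) = (n l : ℂ) := by
    intro l
    rw [← hn l, finsum_eq_sum_of_fintype]
  obtain ⟨A, hA1, hA2⟩ := hCTP p hp hp2 h D hD K hK c n hn hc N hN
  by_contra hcon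
  push Not at hcon
  have hS := CTP_sum hPER D K c n hn'
  have h0 : ∑ l ∈ Finset.univ.filter (fun l : D →* ℂˣ => ∀ u ∈ K, l u = 1), n l = 0 :=
    Finset.sum_eq_zero fun l hl => hcon l (Finset.mem_filter.1 hl).2
  have h1 : (K.index : ℂ) * ∑ᶠ u ∈ (K : Set D), c u = (K.index : ℂ) * ∑ u ∈ Finset.univ.filter (fun u => u ∈ K), c u := by
    congr 1
    rw [finsum_mem_eq_finite_toFinset_sum _ (Set.toFinite (K : Set D))]
    refine Finset.sum_congr ?_ fun _ _ => rfl
    ext u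
    rw [Set.Finite.mem_toFinset, Finset.mem_filter]
    exact ⟨fun h1 => ⟨Finset.mem_univ _, h1⟩, fun h1 => h1.2⟩
  rw [h1, ← hS, h0, Int.cast_zero] at hA1
  have h2 : A = 0 := by
    have h3 : ((A : ℤ) : ℂ) = 0 := hA1.symm
    exact_mod_cast h3
  rw [h2, zero_sub, dvd_neg] at hA2
  exact hNp hA2

end Pool.Agent.BR
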